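import Mathlib

set_option autoImplicit false
open Finset Polynomial

namespace Pool.Agent.H94.EB

section

variable {R : Type*} [CommRing R]

/-- the homogeneous symmetric polynomial of two linear polynomials -/
noncomputable def QQ (t₁ t₂ : R) (N : ℕ) : R[X] :=
  ∑ i ∈ antidiagonal N, (C t₁ * X + C t₂) ^ i.1 * (C t₂ * X + C t₁) ^ i.2

lemma coeff_lin_pow (a b : R) (n j : ℕ) (hj : j ≤ n) :
    ((C a * X + C b : R[X]) ^ n).coeff j = (n.choose j : R) * (a ^ j * b ^ (n - j)) := by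
  rw [add_pow, Polynomial.finset_sum_coeff, Finset.sum_eq_single j]
  · rw [mul_pow, ← C_pow, ← C_pow]
    have : (C (a ^ j) * X ^ j * C (b ^ (n - j)) * (n.choose j : R[X]) : R[X]) =
        C (a ^ j * b ^ (n - j) * (n.choose j : R)) * X ^ j := by
      simp only [C_mul, map_natCast]
      ring
    rw [this, Polynomial.coeff_C_mul_X_pow, if_pos rfl]
    ring
  · intro m _ hm
    rw [mul_pow, ← C_pow, ← C_pow]
    have : (C (a ^ m) * X ^ m * C (b ^ (n - m)) * (n.choose m : R[X]) : R[X]) =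
        C (a ^ m * b ^ (n - m) * (n.choose m : R)) * X ^ m := by
      simp only [C_mul, map_natCast]
      ring
    rw [this, Polynomial.coeff_C_mul_X_pow, if_neg (Ne.symm hm)]
  · intro h
    exact absurd (Finset.mem_range.mpr (by omega)) h

lemma QQ_mul (t₁ t₂ : R) (N : ℕ) :
    QQ t₁ t₂ N * (C (t₁ - t₂) * (X - 1)) =
      (C t₁ * X + C t₂) ^ (N + 1) - (C t₂ * X + C t₁) ^ (N + 1) := by
  have h := (Commute.all (C t₁ * X + C t₂ : R[X]) (C t₂ * X + C t₁)).geom_sum₂_mul (N + 1)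
  rw [← h, QQ]
  congr 1
  · rw [Finset.Nat.sum_antidiagonal_eq_sum_range_succ
      (fun i j => (C t₁ * X + C t₂ : R[X]) ^ i * (C t₂ * X + C t₁) ^ j)]
    refine Finset.sum_congr rfl fun i _ => ?_
    congr 2
  · rw [C_sub]
    ring

lemma coef_mul (t₁ t₂ : R) (k : ℕ) :
    (t₁ - t₂) * ((QQ t₁ t₂ (2 * k)).coeff k - (QQ t₁ t₂ (2 * k)).coeff (k + 1)) =
      (t₁ - t₂) * (((2 * k + 1).choose (k + 1) : R) * (t₁ * t₂) ^ k) := by
  have h : (QQ t₁ t₂ (2 * k) * (C (t₁ - t₂) * (X - 1))).coeff (k + 1) =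
      ((C t₁ * X + C t₂) ^ (2 * k + 1) - (C t₂ * X + C t₁) ^ (2 * k + 1)).coeff (k + 1) := by
    rw [QQ_mul t₁ t₂ (2 * k)]
  have e1 : QQ t₁ t₂ (2 * k) * (C (t₁ - t₂) * (X - 1)) =
      C (t₁ - t₂) * (QQ t₁ t₂ (2 * k) * X - QQ t₁ t₂ (2 * k)) := by ring
  rw [e1, Polynomial.coeff_C_mul, Polynomial.coeff_sub, Polynomial.coeff_mul_X,
    Polynomial.coeff_sub, coeff_lin_pow _ _ _ _ (by omega), coeff_lin_pow _ _ _ _ (by omega)] at h
  rw [h]
  have e2 : 2 * k + 1 - (k + 1) = k := by omega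
  rw [e2, mul_pow, pow_succ, pow_succ]
  ring

end

lemma QQ_map {R S : Type*} [CommRing R] [CommRing S] (φ : R →+* S) (t₁ t₂ : R) (N : ℕ) :
    (QQ t₁ t₂ N).map φ = QQ (φ t₁) (φ t₂) N := by
  simp [QQ, Polynomial.map_sum]

theorem coef_eq (t₁ t₂ : ℂ) (k : ℕ) :
    (QQ t₁ t₂ (2 * k)).coeff k - (QQ t₁ t₂ (2 * k)).coeff (k + 1) =
      ((2 * k + 1).choose (k + 1) : ℂ) * (t₁ * t₂) ^ k := by
  have h := coef_mul (R := ℂ[X]) X (C t₂) k
  have hne : (X - C t₂ : ℂ[X]) ≠ 0 := Polynomial.X_sub_C_ne_zero t₂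
  have h2 := mul_left_cancel₀ hne h
  have h3 := congrArg (Polynomial.evalRingHom t₁) h2
  rw [map_sub, map_mul, map_pow, map_mul] at h3
  have e1 : ∀ j, (Polynomial.evalRingHom t₁) ((QQ (X : ℂ[X]) (C t₂) (2 * k)).coeff j) =
      (QQ t₁ t₂ (2 * k)).coeff j := by
    intro j
    rw [← Polynomial.coeff_map, QQ_map]
    simp
  rw [e1, e1] at h3
  rw [h3]
  simp

lemma QQ_natDegree (t₁ t₂ : ℂ) (N : ℕ) : (QQ t₁ t₂ N).natDegree ≤ N := by
  unfold QQ
  refine Polynomial.natDegree_sum_le_of_forall_le _ _ ?_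
  intro i hi
  have hN : i.1 + i.2 = N := Finset.HasAntidiagonal.mem_antidiagonal.mp hi
  refine (Polynomial.natDegree_mul_le).trans ?_
  have h1 : ∀ (a b : ℂ) (m : ℕ), ((C a * X + C b : ℂ[X]) ^ m).natDegree ≤ m := by
    intro a b m
    refine (Polynomial.natDegree_pow_le).trans ?_
    have : (C a * X + C b : ℂ[X]).natDegree ≤ 1 := Polynomial.natDegree_linear_le
    calc m * _ ≤ m * 1 := Nat.mul_le_mul_left _ this
      _ = m := mul_one m
  calc _ ≤ i.1 + i.2 := Nat.add_le_add (h1 _ _ _) (h1 _ _ _)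
    _ = N := hN

lemma QQ_eval (t₁ t₂ x : ℂ) (N : ℕ) :
    (QQ t₁ t₂ N).eval x = ∑ i ∈ antidiagonal N, (t₁ * x + t₂) ^ i.1 * (t₂ * x + t₁) ^ i.2 := by
  simp [QQ, Polynomial.eval_finset_sum]

/-- evaluation at finitely many points computes a difference of coefficients -/
lemma exists_weights (N k : ℕ) : ∃ (w x : Fin (N + 1) → ℂ), ∀ p : ℂ[X], p.natDegree ≤ N →
    ∑ i, w i * p.eval (x i) = p.coeff k - p.coeff (k + 1) := by
  let x : Fin (N + 1) → ℂ := fun i => ((i : ℕ) : ℂ)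
  have hx : Set.InjOn x (Finset.univ : Finset (Fin (N + 1))) := by
    intro i _ j _ h
    have : ((i : ℕ) : ℂ) = ((j : ℕ) : ℂ) := h
    exact Fin.ext (by exact_mod_cast this)
  refine ⟨fun i => (Lagrange.basis Finset.univ x i).coeff k -
    (Lagrange.basis Finset.univ x i).coeff (k + 1), x, fun p hp => ?_⟩
  have hdeg : p.degree < (Finset.univ : Finset (Fin (N + 1))).card := by
    rw [Finset.card_univ, Fintype.card_fin]
    refine lt_of_le_of_lt Polynomial.degree_le_natDegree ?_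
    exact_mod_cast Nat.lt_succ_of_le hp
  have h := Lagrange.eq_interpolate hx hdeg
  rw [Lagrange.interpolate_apply] at h
  have hc : ∀ j, p.coeff j = ∑ i, p.eval (x i) * (Lagrange.basis Finset.univ x i).coeff j := by
    intro j
    conv_lhs => rw [h]
    rw [Polynomial.finset_sum_coeff]
    refine Finset.sum_congr rfl fun i _ => ?_
    rw [Polynomial.coeff_C_mul]
  rw [hc k, hc (k + 1), ← Finset.sum_sub_distrib]
  refine Finset.sum_congr rfl fun i _ => ?_
  ring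

end Pool.Agent.H94.EB
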