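import Mathlib
import Pool.Agent.H94.EB.Coef

set_option autoImplicit false
open Finset Polynomial

namespace Pool.Agent.H94.EB

variable {ι : Type} [Fintype ι] [DecidableEq ι]

/-- the generating polynomial of a sum of independent indicators -/
noncomputable def PP (p : ι → ℝ) : ℝ[X] := ∏ i, (C (p i) * X + C (1 - p i))

/-- the difference of two successive coefficients -/
noncomputable def ff (k : ℕ) (p : ι → ℝ) : ℝ := (PP p).coeff k - (PP p).coeff (k + 1)

lemma cont_coeff (s : Finset ι) : ∀ j, Continuous fun p : ι → ℝ =>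
    (∏ i ∈ s, (C (p i) * X + C (1 - p i)) : ℝ[X]).coeff j := by
  induction s using Finset.induction_on with
  | empty => intro j; simp only [Finset.prod_empty]; exact continuous_const
  | insert a s ha ih =>
    intro j
    simp only [Finset.prod_insert ha, add_mul, mul_assoc, coeff_add, coeff_C_mul]
    cases j with
    | zero =>
      simp only [Polynomial.mul_coeff_zero, coeff_X_zero, zero_mul, mul_zero, zero_add]
      exact (continuous_const.sub (continuous_apply a)).mul (by simpa using ih 0)
    | succ j =>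
      simp only [Polynomial.coeff_X_mul]
      exact ((continuous_apply a).mul (ih j)).add
        ((continuous_const.sub (continuous_apply a)).mul (ih (j + 1)))

lemma cont_ff (k : ℕ) : Continuous (ff (ι := ι) k) :=
  (cont_coeff univ k).sub (cont_coeff univ (k + 1))

lemma prod_upd {M : Type*} [CommMonoid M] (G : ℝ → M) (p : ι → ℝ) {i j : ι} (hij : i ≠ j)
    (a b : ℝ) : ∏ l, G (Function.update (Function.update p i a) j b l) =
      G a * (G b * ∏ l ∈ (univ.erase i).erase j, G (p l)) := by
  rw [← Finset.mul_prod_erase univ _ (Finset.mem_univ i),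
    ← Finset.mul_prod_erase (univ.erase i) _ (Finset.mem_erase.mpr ⟨hij.symm, Finset.mem_univ j⟩)]
  congr 1
  · rw [Function.update_of_ne hij, Function.update_self]
  · congr 1
    · rw [Function.update_self]
    · refine Finset.prod_congr rfl fun l hl => ?_
      have h1 : l ≠ j := (Finset.mem_erase.mp hl).1
      have h2 : l ≠ i := (Finset.mem_erase.mp (Finset.mem_erase.mp hl).2).1
      rw [Function.update_of_ne h1, Function.update_of_ne h2]

lemma sum_upd (G : ℝ → ℝ) (p : ι → ℝ) {i j : ι} (hij : i ≠ j)
    (a b : ℝ) : ∑ l, G (Function.update (Function.update p i a) j b l) =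
      G a + (G b + ∑ l ∈ (univ.erase i).erase j, G (p l)) := by
  have := prod_upd (M := Multiplicative ℝ) (fun x => Multiplicative.ofAdd (G x)) p hij a b
  exact this

lemma upd_self (p : ι → ℝ) (i j : ι) :
    Function.update (Function.update p i (p i)) j (p j) = p := by
  rw [Function.update_eq_self, Function.update_eq_self]

lemma ff_pair (k : ℕ) (p : ι → ℝ) {i j : ι} (hij : i ≠ j) : ∃ A B : ℝ, ∀ a b,
    a + b = p i + p j →
      ff k (Function.update (Function.update p i a) j b) = A + a * b * B := by
  set R : ℝ[X] := ∏ l ∈ (univ.erase i).erase j, (C (p l) * X + C (1 - p l)) with hR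
  set s : ℝ := p i + p j with hs
  refine ⟨((C s * X + C (1 - s)) * R).coeff k - ((C s * X + C (1 - s)) * R).coeff (k + 1),
    ((X - 1) ^ 2 * R).coeff k - ((X - 1) ^ 2 * R).coeff (k + 1), fun a b hab => ?_⟩
  have h : PP (Function.update (Function.update p i a) j b) =
      (C s * X + C (1 - s)) * R + C (a * b) * ((X - 1) ^ 2 * R) := by
    rw [PP, prod_upd (fun t => (C t * X + C (1 - t) : ℝ[X])) p hij a b, ← hR, ← hab]
    simp only [C_sub, C_add, C_mul, C_1]
    ring
  rw [ff, h, coeff_add, coeff_add, coeff_C_mul, coeff_C_mul]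
  ring

/-- the domain -/
def dom (ι : Type) [Fintype ι] (k : ℕ) : Set (ι → ℝ) :=
  {p | (∀ i, 0 ≤ p i ∧ p i ≤ 1) ∧ ∑ i, p i = k}

lemma dom_compact (k : ℕ) : IsCompact (dom ι k) := by
  refine IsCompact.of_isClosed_subset (isCompact_Icc (a := (0 : ι → ℝ)) (b := 1)) ?_ ?_
  · unfold dom
    rw [Set.setOf_and]
    refine IsClosed.inter ?_ ?_
    · simp only [Set.setOf_forall]
      refine isClosed_iInter fun i => ?_
      rw [Set.setOf_and]
      exact (isClosed_le continuous_const (continuous_apply i)).inter
        (isClosed_le (continuous_apply i) continuous_const)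
    · exact isClosed_eq (continuous_finset_sum _ fun i _ => continuous_apply i) continuous_const
  · intro p hp
    exact ⟨fun i => (hp.1 i).1, fun i => (hp.1 i).2⟩

lemma ff_special (k : ℕ) (q : ι → ℝ) (hq : q ∈ dom ι k) (c : ℝ)
    (hc : ∀ i, 0 < q i → q i < 1 → q i = c) : 0 < ff k q := by
  set L : ℝ[X] := C c * X + C (1 - c) with hL
  set a := (univ.filter fun i => q i = 1).card with ha
  set m := (univ.filter fun i => 0 < q i ∧ q i < 1).card with hm
  have hfac : ∀ i, (C (q i) * X + C (1 - q i) : ℝ[X]) =
      (if q i = 1 then X else 1) * (if 0 < q i ∧ q i < 1 then L else 1) := by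
    intro i
    rcases (hq.1 i).1.eq_or_lt with h0 | h0
    · rw [← h0]; simp
    · rcases (hq.1 i).2.eq_or_lt with h1 | h1
      · rw [h1]; simp
      · rw [if_neg h1.ne, if_pos ⟨h0, h1⟩, hc i h0 h1, one_mul]
  have hval : ∀ i, q i = (if q i = 1 then 1 else 0) + (if 0 < q i ∧ q i < 1 then c else 0) := by
    intro i
    rcases (hq.1 i).1.eq_or_lt with h0 | h0
    · rw [← h0]; simp
    · rcases (hq.1 i).2.eq_or_lt with h1 | h1
      · rw [h1]; simp
      · rw [if_neg h1.ne, if_pos ⟨h0, h1⟩, ← hc i h0 h1, zero_add]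
  have hPP : PP q = X ^ a * L ^ m := by
    rw [PP, Finset.prod_congr rfl fun i _ => hfac i, Finset.prod_mul_distrib]
    rw [Finset.prod_ite, Finset.prod_ite]
    simp only [Finset.prod_const, one_pow, mul_one]
    rw [← ha, ← hm]
  have hsum : (a : ℝ) + m * c = k := by
    rw [← hq.2, Finset.sum_congr rfl fun i _ => hval i, Finset.sum_add_distrib]
    rw [Finset.sum_ite, Finset.sum_ite]
    simp only [Finset.sum_const, add_zero, nsmul_eq_mul, mul_one, mul_zero]
    rw [← ha, ← hm]
  rcases Nat.eq_zero_or_pos m with hm0 | hm0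
  · have hak : a = k := by
      have : (a : ℝ) = k := by rw [← hsum, hm0]; simp
      exact_mod_cast this
    rw [ff, hPP, hm0, pow_zero, mul_one, hak, Polynomial.coeff_X_pow, Polynomial.coeff_X_pow]
    simp
  · -- the common value is interior
    obtain ⟨i0, hi0⟩ := Finset.card_pos.mp hm0
    have hi1 := (Finset.mem_filter.mp hi0).2
    have hc0 : 0 < c := by rw [← hc i0 hi1.1 hi1.2]; exact hi1.1
    have hc1 : c < 1 := by rw [← hc i0 hi1.1 hi1.2]; exact hi1.2
    have hmR : (0 : ℝ) < m := by exact_mod_cast hm0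
    have hak : a < k := by
      have : (a : ℝ) < k := by rw [← hsum]; nlinarith [mul_pos hmR hc0]
      exact_mod_cast this
    obtain ⟨μ, rfl⟩ : ∃ μ, k = a + μ := ⟨k - a, by omega⟩
    have hμ : (m : ℝ) * c = μ := by
      push_cast at hsum
      linarith
    have hμm : μ < m := by
      have : (μ : ℝ) < m := by rw [← hμ]; nlinarith
      exact_mod_cast this
    have hμ0 : 0 < μ := by omega
    rw [ff, hPP]
    have e1 : (X ^ a * L ^ m).coeff (a + μ) = (L ^ m).coeff μ := by
      rw [add_comm, Polynomial.coeff_X_pow_mul]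
    have e2 : (X ^ a * L ^ m).coeff (a + μ + 1) = (L ^ m).coeff (μ + 1) := by
      have : a + μ + 1 = (μ + 1) + a := by ring
      rw [this, Polynomial.coeff_X_pow_mul]
    rw [e1, e2, hL, coeff_lin_pow c (1 - c) m μ hμm.le, coeff_lin_pow c (1 - c) m (μ + 1) hμm]
    have hch : (m.choose (μ + 1) : ℝ) * (μ + 1) = m.choose μ * (m - μ) := by
      have h := Nat.choose_succ_right_eq m μ
      have h' : ((m.choose (μ + 1) * (μ + 1) : ℕ) : ℝ) = ((m.choose μ * (m - μ) : ℕ) : ℝ) := by
        rw [h]
      push_cast [Nat.cast_sub hμm.le] at h'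
      exact h'
    obtain ⟨d, hd⟩ : ∃ d, m = μ + 1 + d := ⟨m - (μ + 1), by omega⟩
    have e3 : m - μ = d + 1 := by omega
    have e4 : m - (μ + 1) = d := by omega
    rw [e3, e4]
    have hpow : 0 < c ^ μ * (1 - c) ^ d := mul_pos (pow_pos hc0 _) (pow_pos (by linarith) _)
    have hchp : (0 : ℝ) < m.choose μ := by exact_mod_cast Nat.choose_pos hμm.le
    have hμR : (0 : ℝ) < μ := by exact_mod_cast hμ0
    have hkey : (m.choose (μ + 1) : ℝ) * c < m.choose μ * (1 - c) := by
      -- multiply by `(μ + 1) * m`
      have h1 : (m.choose (μ + 1) : ℝ) * c * (μ + 1) = m.choose μ * ((m - μ) * c) := by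
        linear_combination c * hch
      have h2 : ((m : ℝ) - μ) * c = μ * (1 - c) := by linear_combination hμ
      rw [h2] at h1
      have h3 : (m.choose μ : ℝ) * (μ * (1 - c)) < m.choose μ * (1 - c) * (μ + 1) := by
        have : 0 < (m.choose μ : ℝ) * (1 - c) := mul_pos hchp (by linarith)
        nlinarith
      rw [← h1] at h3
      exact lt_of_mul_lt_mul_right h3 (by linarith)
    have : (m.choose μ : ℝ) * (c ^ μ * (1 - c) ^ (d + 1)) -
        m.choose (μ + 1) * (c ^ (μ + 1) * (1 - c) ^ d) =
        (m.choose μ * (1 - c) - m.choose (μ + 1) * c) * (c ^ μ * (1 - c) ^ d) := by ring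
    rw [this]
    exact mul_pos (by linarith) hpow

/-- **Darroch's inequality** at an integral mean. -/
theorem darroch (k : ℕ) (p : ι → ℝ) (h0 : ∀ i, 0 ≤ p i ∧ p i ≤ 1) (hs : ∑ i, p i = k) :
    0 < ff k p := by
  have hp : p ∈ dom ι k := ⟨h0, hs⟩
  obtain ⟨p0, hp0, hmin⟩ := (dom_compact (ι := ι) k).exists_isMinOn ⟨p, hp⟩
    (cont_ff k).continuousOn
  have hM : IsCompact (dom ι k ∩ {q | ff k q ≤ ff k p0}) :=
    (dom_compact k).inter_right (isClosed_le (cont_ff k) continuous_const)
  have hcont2 : Continuous fun q : ι → ℝ => ∑ i, q i ^ 2 :=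
    continuous_finset_sum _ fun i _ => (continuous_apply i).pow 2
  obtain ⟨q, hq, hqmin⟩ := hM.exists_isMinOn
    ⟨p0, hp0, (le_refl _ : ff k p0 ≤ ff k p0)⟩ hcont2.continuousOn
  have hqle : ∀ r ∈ dom ι k, ff k q ≤ ff k r := fun r hr => hq.2.trans (hmin hr)
  have hint : ∀ i j, 0 < q i → q i < 1 → 0 < q j → q j < 1 → q i = q j := by
    intro i j hi0 hi1 hj0 hj1
    by_contra hne
    have hij : i ≠ j := fun h => hne (by rw [h])
    obtain ⟨A, B, hAB⟩ := ff_pair k q hij
    have hself : ff k q = A + q i * q j * B := by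
      have := hAB (q i) (q j) rfl
      rwa [upd_self] at this
    have hdom : ∀ a b, a + b = q i + q j → 0 ≤ a → a ≤ 1 → 0 ≤ b → b ≤ 1 →
        Function.update (Function.update q i a) j b ∈ dom ι k := by
      intro a b hab ha0 ha1 hb0 hb1
      refine ⟨fun l => ?_, ?_⟩
      · by_cases hlj : l = j
        · rw [hlj, Function.update_self]; exact ⟨hb0, hb1⟩
        · rw [Function.update_of_ne hlj]
          by_cases hli : l = i
          · rw [hli, Function.update_self]; exact ⟨ha0, ha1⟩
          · rw [Function.update_of_ne hli]; exact hq.1.1 l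
      · have h1 := sum_upd (fun t => t) q hij a b
        have h2 := sum_upd (fun t => t) q hij (q i) (q j)
        rw [upd_self] at h2
        rw [h1, ← hq.1.2, h2]
        linarith
    have hB : B = 0 := by
      set d := q j - q i with hd
      have hd0 : d ≠ 0 := fun h => hne (by linarith)
      have hdpos : 0 < |d| := abs_pos.mpr hd0
      set τ := min (|d| / 2) (min (min (q i) (1 - q i)) (min (q j) (1 - q j))) with hτ
      have hτ0 : 0 < τ := by
        rw [hτ]
        refine lt_min (by linarith) (lt_min (lt_min hi0 (by linarith)) (lt_min hj0 (by linarith)))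
      have hτ1 : τ ≤ |d| / 2 := min_le_left _ _
      have hτ2 : τ ≤ q i := (min_le_right _ _).trans ((min_le_left _ _).trans (min_le_left _ _))
      have hτ3 : τ ≤ 1 - q i := (min_le_right _ _).trans ((min_le_left _ _).trans (min_le_right _ _))
      have hτ4 : τ ≤ q j := (min_le_right _ _).trans ((min_le_right _ _).trans (min_le_left _ _))
      have hτ5 : τ ≤ 1 - q j :=
        (min_le_right _ _).trans ((min_le_right _ _).trans (min_le_right _ _))
      have g1 := hqle _ (hdom (q i + τ) (q j - τ) (by ring) (by linarith) (by linarith)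
        (by linarith) (by linarith))
      have g2 := hqle _ (hdom (q i - τ) (q j + τ) (by ring) (by linarith) (by linarith)
        (by linarith) (by linarith))
      rw [hAB _ _ (by ring), hself] at g1 g2
      have k1 : 0 ≤ τ * ((d - τ) * B) := by
        have : τ * ((d - τ) * B) = (q i + τ) * (q j - τ) * B - q i * q j * B := by
          rw [hd]; ring
        linarith
      have k2 : 0 ≤ τ * (-(d + τ) * B) := by
        have : τ * (-(d + τ) * B) = (q i - τ) * (q j + τ) * B - q i * q j * B := by
          rw [hd]; ring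
        linarith
      have k1' := nonneg_of_mul_nonneg_right k1 hτ0
      have k2' := nonneg_of_mul_nonneg_right k2 hτ0
      rcases lt_or_gt_of_ne hd0 with hneg | hpos
      · rw [abs_of_neg hneg] at hτ1
        have : d - τ < 0 := by linarith
        have : d + τ < 0 := by linarith
        nlinarith
      · rw [abs_of_pos hpos] at hτ1
        have : 0 < d - τ := by linarith
        have : 0 < d + τ := by linarith
        nlinarith
    have hav := hdom ((q i + q j) / 2) ((q i + q j) / 2) (by ring) (by linarith) (by linarith)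
      (by linarith) (by linarith)
    have hffav : ff k (Function.update (Function.update q i ((q i + q j) / 2)) j
        ((q i + q j) / 2)) = ff k q := by
      rw [hAB _ _ (by ring), hself, hB]; ring
    have hle := hqmin (show Function.update (Function.update q i ((q i + q j) / 2)) j
        ((q i + q j) / 2) ∈ dom ι k ∩ {q | ff k q ≤ ff k p0} from
        ⟨hav, by rw [Set.mem_setOf_eq, hffav]; exact hq.2⟩)
    have s1 := sum_upd (fun t => t ^ 2) q hij ((q i + q j) / 2) ((q i + q j) / 2)
    have s2 := sum_upd (fun t => t ^ 2) q hij (q i) (q j)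
    rw [upd_self] at s2
    have hle' : ∑ l, q l ^ 2 ≤ ∑ l, Function.update (Function.update q i ((q i + q j) / 2)) j
        ((q i + q j) / 2) l ^ 2 := hle
    rw [s1, s2] at hle'
    have : 0 < (q i - q j) ^ 2 := by
      have : q i - q j ≠ 0 := sub_ne_zero.mpr hne
      positivity
    nlinarith
  have hqpos : 0 < ff k q := by
    by_cases hex : ∃ i, 0 < q i ∧ q i < 1
    · obtain ⟨i0, hi0, hi1⟩ := hex
      exact ff_special k q hq.1 (q i0) fun i h1 h2 => hint i i0 h1 h2 hi0 hi1
    · exact ff_special k q hq.1 0 fun i h1 h2 => absurd ⟨i, h1, h2⟩ hex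
  exact lt_of_lt_of_le hqpos (hqle p hp)

end Pool.Agent.H94.EB
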