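import Mathlib
import Pool.Agent.H94.MD.Scale

set_option autoImplicit false
open scoped ComplexOrder
open Matrix Equiv Finset

namespace Pool.Agent.H94.EB

open Pool.Agent.H94.MD

variable {κ : Type} [Fintype κ] [DecidableEq κ] {n : ℕ}

/-- action of matrices on the index side -/
def acr (g : Matrix (Fin n) (Fin n) ℂ) (B : Fin n → Fin n → Matrix κ κ ℂ) :
    Fin n → Fin n → Matrix κ κ ℂ :=
  fun i j => ∑ k, ∑ l, (g i k * star (g j l)) • B k l

lemma acr_acr (g h : Matrix (Fin n) (Fin n) ℂ) (B : Fin n → Fin n → Matrix κ κ ℂ) :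
    acr g (acr h B) = acr (g * h) B := by
  funext i j
  have h1 : ∀ k l, (g i k * star (g j l)) • acr h B k l =
      ∑ a, ∑ b, ((g i k * h k a) * (star (g j l) * star (h l b))) • B a b := by
    intro k l
    simp only [acr, Finset.smul_sum, smul_smul]
    refine Finset.sum_congr rfl fun a _ => Finset.sum_congr rfl fun b _ => ?_
    congr 1
    ring
  have h2 : acr g (acr h B) i j = ∑ k, ∑ l, (g i k * star (g j l)) • acr h B k l := rfl
  rw [h2]
  simp only [h1]
  have h3 : acr (g * h) B i j = ∑ a, ∑ b, ((∑ k, g i k * h k a) *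
      (∑ l, star (g j l) * star (h l b))) • B a b := by
    simp only [acr, Matrix.mul_apply, star_sum, star_mul']
  rw [h3]
  have h4 : ∀ a b, ((∑ k, g i k * h k a) * (∑ l, star (g j l) * star (h l b))) • B a b =
      ∑ k, ∑ l, ((g i k * h k a) * (star (g j l) * star (h l b))) • B a b := by
    intro a b
    rw [Finset.sum_mul_sum, Finset.sum_smul]
    exact Finset.sum_congr rfl fun k _ => Finset.sum_smul
  simp only [h4]
  have e1 : ∀ G : Fin n → Fin n → Fin n → Fin n → Matrix κ κ ℂ,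
      ∑ k, ∑ l, ∑ a, ∑ b, G k l a b = ∑ a, ∑ b, ∑ k, ∑ l, G k l a b := by
    intro G
    have a1 : ∀ k, ∑ l, ∑ a, ∑ b, G k l a b = ∑ a, ∑ b, ∑ l, G k l a b := by
      intro k
      rw [Finset.sum_comm]
      exact Finset.sum_congr rfl fun a _ => Finset.sum_comm
    rw [Finset.sum_congr rfl fun k _ => a1 k, Finset.sum_comm]
    exact Finset.sum_congr rfl fun a _ => Finset.sum_comm
  exact e1 _

lemma acr_posF {g : Matrix (Fin n) (Fin n) ℂ} (hg : g.det ≠ 0)
    {B : Fin n → Fin n → Matrix κ κ ℂ} (hB : PosF B) : PosF (acr g B) := by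
  intro ξ hξ
  have hinj : ξ ᵥ* g ≠ 0 := by
    intro h0
    apply hξ
    have hu : IsUnit g := (Matrix.isUnit_iff_isUnit_det _).mpr (isUnit_iff_ne_zero.mpr hg)
    have := Matrix.vecMul_injective_iff_isUnit.mpr hu
    exact this (by simpa using h0)
  have h := hB (ξ ᵥ* g) hinj
  convert h using 1
  ext a b
  simp only [acr, Matrix.sum_apply, Matrix.smul_apply, smul_eq_mul, Finset.mul_sum,
    Matrix.vecMul, dotProduct, star_sum, star_mul', Finset.sum_mul]
  have e1 : ∀ F : Fin n → Fin n → Fin n → Fin n → ℂ, ∑ i, ∑ j, ∑ k, ∑ l, F i j k l =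
      ∑ k, ∑ l, ∑ j, ∑ i, F i j k l := by
    intro F
    have a1 : ∀ i, ∑ j, ∑ k, ∑ l, F i j k l = ∑ k, ∑ l, ∑ j, F i j k l := by
      intro i
      rw [Finset.sum_comm]
      exact Finset.sum_congr rfl fun k _ => Finset.sum_comm
    rw [Finset.sum_congr rfl fun i _ => a1 i, Finset.sum_comm]
    refine Finset.sum_congr rfl fun k _ => ?_
    rw [Finset.sum_comm]
    exact Finset.sum_congr rfl fun l _ => Finset.sum_comm
  rw [e1]
  refine Finset.sum_congr rfl fun k _ => Finset.sum_congr rfl fun l _ =>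
    Finset.sum_congr rfl fun j _ => Finset.sum_congr rfl fun i _ => ?_
  ring

lemma conj_posFr {G : Matrix κ κ ℂ} (hG : G.det ≠ 0) {B : Fin n → Fin n → Matrix κ κ ℂ}
    (hB : PosF B) : PosF (fun i j => G * B i j * Gᴴ) := by
  intro ξ hξ
  have h1 := (hB ξ hξ).mul_mul_conjTranspose_same (B := G)
    (Matrix.vecMul_injective_iff_isUnit.mpr
      ((Matrix.isUnit_iff_isUnit_det _).mpr (isUnit_iff_ne_zero.mpr hG)))
  convert h1 using 1
  simp only [Matrix.mul_sum, Matrix.sum_mul, Matrix.mul_smul, Matrix.smul_mul]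

/-- the sum of the diagonal members of the moved family -/
noncomputable def SR (B : Fin n → Fin n → Matrix κ κ ℂ) (g : Matrix (Fin n) (Fin n) ℂ) :
    Matrix κ κ ℂ := ∑ i, acr g B i i

lemma SR_posDef {B : Fin n → Fin n → Matrix κ κ ℂ} (hB : PosF B)
    {g : Matrix (Fin n) (Fin n) ℂ} (hg : g ≠ 0) : (SR B g).PosDef := by
  classical
  have hrow : ∃ i, g i ≠ 0 := by
    by_contra hcon
    push Not at hcon
    apply hg
    ext i j
    exact congrFun (hcon i) j
  obtain ⟨i₀, hi₀⟩ := hrow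
  have h1 : ∀ i, g i ≠ 0 → (acr g B i i).PosDef := fun i hi => hB (g i) hi
  have h2 : ∀ i, (acr g B i i).PosSemidef := by
    intro i
    by_cases hi : g i = 0
    · have : acr g B i i = 0 := by
        simp [acr, hi]
      rw [this]
      exact PosSemidef.zero
    · exact (h1 i hi).posSemidef
  rw [SR, ← Finset.add_sum_erase _ _ (Finset.mem_univ i₀)]
  exact (h1 i₀ hi₀).add_posSemidef (posSemidef_sum _ fun i _ => h2 i)

lemma SR_smul (B : Fin n → Fin n → Matrix κ κ ℂ) (c : ℝ)
    (g : Matrix (Fin n) (Fin n) ℂ) : SR B ((c : ℂ) • g) = ((c ^ 2 : ℝ) : ℂ) • SR B g := by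
  unfold SR acr
  rw [Finset.smul_sum]
  refine Finset.sum_congr rfl fun i _ => ?_
  rw [Finset.smul_sum]
  refine Finset.sum_congr rfl fun k _ => ?_
  rw [Finset.smul_sum]
  refine Finset.sum_congr rfl fun l _ => ?_
  rw [smul_smul]
  congr 1
  simp only [Matrix.smul_apply, smul_eq_mul, star_mul', Complex.star_def, Complex.conj_ofReal]
  push_cast
  ring

lemma SR_cont (B : Fin n → Fin n → Matrix κ κ ℂ) :
    Continuous fun g : Matrix (Fin n) (Fin n) ℂ => (SR B g).det := by
  refine Continuous.matrix_det ?_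
  unfold SR acr
  refine continuous_finsetSum _ fun i _ => continuous_finsetSum _ fun k _ =>
    continuous_finsetSum _ fun l _ => ?_
  have h : Continuous fun g : Matrix (Fin n) (Fin n) ℂ => (g i k * star (g i l)) := by fun_prop
  exact h.smul (continuous_const (y := B k l))

/-- existence of a maximiser -/
lemma exists_maxr (hn : 0 < n) {B : Fin n → Fin n → Matrix κ κ ℂ} (hB : PosF B) (m : ℕ)
    (hm : Fintype.card κ = n * m) :
    ∃ g₀ : Matrix (Fin n) (Fin n) ℂ, g₀.det ≠ 0 ∧ ∀ g : Matrix (Fin n) (Fin n) ℂ,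
      Complex.normSq g.det ^ m * (SR B g₀).det.re ≤
        Complex.normSq g₀.det ^ m * (SR B g).det.re := by
  classical
  haveI : Nonempty (Fin n) := ⟨⟨0, hn⟩⟩
  rcases Nat.eq_zero_or_pos m with hm0 | hm0
  · subst hm0
    haveI : IsEmpty κ := Fintype.card_eq_zero_iff.mp (by simpa using hm)
    exact ⟨1, by simp, fun g => by simp⟩
  let K : Set (Fin n → Fin n → ℂ) := Metric.sphere 0 1
  have hK : IsCompact K := isCompact_sphere 0 1
  have hne : ∀ g : Fin n → Fin n → ℂ, g ∈ K → (g : Matrix (Fin n) (Fin n) ℂ) ≠ 0 := by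
    intro g hg h0
    have h1 : ‖g‖ = 1 := by simpa [K] using hg
    have h2 : g = (0 : Fin n → Fin n → ℂ) := h0
    rw [h2, norm_zero] at h1
    exact zero_ne_one h1
  let ψ : (Fin n → Fin n → ℂ) → ℝ := fun g =>
    Complex.normSq (Matrix.det (g : Matrix (Fin n) (Fin n) ℂ)) ^ m / (SR B g).det.re
  have hcont : ContinuousOn ψ K := by
    refine ContinuousOn.div ?_ ?_ ?_
    · refine Continuous.continuousOn ?_
      refine (Complex.continuous_normSq.comp ?_).pow m
      exact Continuous.matrix_det continuous_id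
    · exact (Complex.continuous_re.comp (SR_cont B)).continuousOn
    · intro g hg
      exact (re_of_pos (SR_posDef hB (hne g hg)).det_pos).1.ne'
  have hKne : K.Nonempty := by
    let g1 : Fin n → Fin n → ℂ := fun i j => if i = j then 1 else 0
    refine ⟨g1, ?_⟩
    have h1 : ‖g1‖ = 1 := by
      apply le_antisymm
      · rw [pi_norm_le_iff_of_nonneg zero_le_one]
        intro i
        rw [pi_norm_le_iff_of_nonneg zero_le_one]
        intro j
        simp only [g1]
        split_ifs <;> simp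
      · have h2 : ‖g1 ⟨0, hn⟩ ⟨0, hn⟩‖ ≤ ‖g1‖ :=
          (norm_le_pi_norm (g1 ⟨0, hn⟩) _).trans (norm_le_pi_norm g1 _)
        simpa [g1] using h2
    simpa [K] using h1
  obtain ⟨g₀, hg₀, hmax⟩ := hK.exists_isMaxOn hKne hcont
  have hp : ∀ g : Matrix (Fin n) (Fin n) ℂ, g ≠ 0 → 0 < (SR B g).det.re := fun g hg =>
    (re_of_pos (SR_posDef hB hg).det_pos).1
  have key : ∀ g : Matrix (Fin n) (Fin n) ℂ,
      Complex.normSq g.det ^ m * (SR B g₀).det.re ≤
        Complex.normSq (Matrix.det (g₀ : Matrix (Fin n) (Fin n) ℂ)) ^ m * (SR B g).det.re := by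
    intro g
    by_cases hg : g = 0
    · subst hg
      haveI : Nonempty κ := by
        rw [← Fintype.card_pos_iff, hm]
        exact Nat.mul_pos hn hm0
      have h1 : SR B (0 : Matrix (Fin n) (Fin n) ℂ) = 0 := by simp [SR, acr]
      rw [h1, Matrix.det_zero, Matrix.det_zero, map_zero, zero_pow hm0.ne', zero_mul,
        Complex.zero_re, mul_zero]
    · let G : Fin n → Fin n → ℂ := g
      have hG : G ≠ 0 := hg
      have hc : 0 < ‖G‖ := norm_pos_iff.mpr hG
      let c : ℝ := ‖G‖⁻¹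
      have hcp : 0 < c := inv_pos.mpr hc
      let g1 : Matrix (Fin n) (Fin n) ℂ := (c : ℂ) • g
      have hg1 : (g1 : Fin n → Fin n → ℂ) ∈ K := by
        have h1 : ‖((c : ℂ) • G : Fin n → Fin n → ℂ)‖ = 1 := by
          rw [norm_smul, Complex.norm_real, Real.norm_of_nonneg hcp.le]
          exact inv_mul_cancel₀ hc.ne'
        exact mem_sphere_zero_iff_norm.mpr h1
      have h2 := hmax hg1
      have h2' : Complex.normSq g1.det ^ m / (SR B g1).det.re ≤
          Complex.normSq (Matrix.det (g₀ : Matrix (Fin n) (Fin n) ℂ)) ^ m / (SR B g₀).det.re := h2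
      rw [div_le_div_iff₀ (hp _ (hne _ hg1)) (hp _ (hne _ hg₀))] at h2'
      have e1 : Complex.normSq g1.det ^ m = (c ^ 2) ^ (n * m) * Complex.normSq g.det ^ m := by
        simp only [g1]
        rw [Matrix.det_smul, Fintype.card_fin, map_mul, map_pow, Complex.normSq_ofReal, ← pow_two,
          mul_pow, ← pow_mul (c ^ 2)]
      have e2 : (SR B g1).det.re = (c ^ 2) ^ (n * m) * (SR B g).det.re := by
        simp only [g1]
        rw [SR_smul, Matrix.det_smul, hm, ← Complex.ofReal_pow, Complex.re_ofReal_mul]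
      rw [e1, e2] at h2'
      have hcn : 0 < (c ^ 2) ^ (n * m) := by positivity
      have h3 : (c ^ 2) ^ (n * m) * (Complex.normSq g.det ^ m * (SR B g₀).det.re) ≤
        (c ^ 2) ^ (n * m) *
        (Complex.normSq (Matrix.det (g₀ : Matrix (Fin n) (Fin n) ℂ)) ^ m * (SR B g).det.re) := by
        linarith
      exact le_of_mul_le_mul_left h3 hcn
  refine ⟨g₀, ?_, key⟩
  intro h0
  have h1 := key 1
  rw [h0, map_zero, zero_pow hm0.ne', zero_mul, Matrix.det_one, map_one, one_pow, one_mul] at h1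
  exact absurd (hp _ (hne _ hg₀)) (not_lt.mpr h1)

lemma hasDerivAt_detr (Z : Matrix κ κ ℂ) (c : ℝ) :
    HasDerivAt (fun s : ℝ => (Matrix.det (1 + ((2 * s + s ^ 2 * c : ℝ) : ℂ) • Z)).re)
      (2 * Z.trace.re) 0 := by
  let P : Polynomial ℂ := Matrix.det (1 + (Polynomial.X : Polynomial ℂ) • Z.map Polynomial.C)
  have hP : ∀ r : ℂ, P.eval r = Matrix.det (1 + r • Z) := by
    intro r
    simp only [P]
    rw [← Polynomial.coe_evalRingHom, RingHom.map_det]
    congr 1
    ext i j
    simp only [RingHom.mapMatrix_apply, Matrix.map_apply, Matrix.add_apply, Matrix.smul_apply,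
      smul_eq_mul, Polynomial.coe_evalRingHom, Polynomial.eval_add, Polynomial.eval_mul,
      Polynomial.eval_X, Polynomial.eval_C]
    congr 1
    by_cases h : i = j
    · subst h; simp
    · simp [h]
  have h1 : HasDerivAt (fun r : ℂ => Matrix.det (1 + r • Z)) Z.trace 0 := by
    have h2 := P.hasDerivAt 0
    have h3 : (Polynomial.derivative P).eval 0 = Z.trace := Matrix.derivative_det_one_add_X_smul Z
    rw [h3] at h2
    exact h2.congr_of_eventuallyEq (Filter.Eventually.of_forall fun r => (hP r).symm)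
  have h4 : HasDerivAt (fun r : ℝ => (Matrix.det (1 + (r : ℂ) • Z)).re) Z.trace.re 0 := by
    have : HasDerivAt (fun r : ℂ => Matrix.det (1 + r • Z)) Z.trace ((0 : ℝ) : ℂ) := by
      simpa using h1
    exact this.real_of_complex
  have h5 : HasDerivAt (fun s : ℝ => 2 * s + s ^ 2 * c) 2 0 := by
    have a1 : HasDerivAt (fun s : ℝ => 2 * s) 2 0 := by
      simpa using (hasDerivAt_id (0 : ℝ)).const_mul 2
    have a2 : HasDerivAt (fun s : ℝ => s ^ 2 * c) 0 0 := by
      have := ((hasDerivAt_pow 2 (0 : ℝ))).mul_const c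
      simpa using this
    simpa using a1.fun_add a2
  have h6 : HasDerivAt (fun r : ℝ => (Matrix.det (1 + (r : ℂ) • Z)).re) Z.trace.re
      ((fun s : ℝ => 2 * s + s ^ 2 * c) 0) := by
    simpa using h4
  have h7 := h6.comp 0 h5
  rw [mul_comm] at h7
  exact h7

lemma SR_conj (h : Matrix κ κ ℂ) (B : Fin n → Fin n → Matrix κ κ ℂ)
    (g : Matrix (Fin n) (Fin n) ℂ) :
    SR (fun i j => h * B i j * hᴴ) g = h * SR B g * hᴴ := by
  simp only [SR, acr, Matrix.mul_sum, Matrix.sum_mul, Matrix.mul_smul, Matrix.smul_mul]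

lemma SR_eq (B : Fin n → Fin n → Matrix κ κ ℂ) (g : Matrix (Fin n) (Fin n) ℂ) :
    SR B g = ∑ k, ∑ l, (∑ i, g i k * star (g i l)) • B k l := by
  unfold SR acr
  rw [Finset.sum_comm]
  refine Finset.sum_congr rfl fun k _ => ?_
  rw [Finset.sum_comm]
  refine Finset.sum_congr rfl fun l _ => ?_
  rw [Finset.sum_smul]

lemma SR_shift (B : Fin n → Fin n → Matrix κ κ ℂ) (hS : SR B 1 = 1)
    (v : Fin n → ℂ) (s : ℝ) :
    SR B (1 + (s : ℂ) • Matrix.vecMulVec (star v) v) =
      1 + ((2 * s + s ^ 2 * (∑ i, Complex.normSq (v i)) : ℝ) : ℂ) •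
        ∑ k, ∑ l, (v k * star (v l)) • B k l := by
  have h1 : ∀ k l, ∑ i, (1 + (s : ℂ) • Matrix.vecMulVec (star v) v : Matrix (Fin n) (Fin n) ℂ) i k *
      star ((1 + (s : ℂ) • Matrix.vecMulVec (star v) v : Matrix (Fin n) (Fin n) ℂ) i l) =
      (∑ i, (1 : Matrix (Fin n) (Fin n) ℂ) i k * star ((1 : Matrix (Fin n) (Fin n) ℂ) i l)) +
      ((2 * s + s ^ 2 * (∑ i, Complex.normSq (v i)) : ℝ) : ℂ) * (v k * star (v l)) := by
    intro k l
    have e1 : ∀ i, (1 + (s : ℂ) • Matrix.vecMulVec (star v) v : Matrix (Fin n) (Fin n) ℂ) i k *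
        star ((1 + (s : ℂ) • Matrix.vecMulVec (star v) v : Matrix (Fin n) (Fin n) ℂ) i l) =
        (1 : Matrix (Fin n) (Fin n) ℂ) i k * star ((1 : Matrix (Fin n) (Fin n) ℂ) i l) +
        (1 : Matrix (Fin n) (Fin n) ℂ) i k * (s * (v i * star (v l))) +
        star ((1 : Matrix (Fin n) (Fin n) ℂ) i l) * (s * (star (v i) * v k)) +
        (s : ℂ) ^ 2 * (v k * star (v l)) * (Complex.normSq (v i) : ℂ) := by
      intro i
      have e2 : (Complex.normSq (v i) : ℂ) = v i * star (v i) := by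
        rw [Complex.star_def, Complex.mul_conj]
      rw [e2]
      simp only [Matrix.add_apply, Matrix.smul_apply, Matrix.vecMulVec_apply, Pi.star_apply,
        smul_eq_mul, star_add, star_mul', star_star]
      have e3 : star (s : ℂ) = (s : ℂ) := by simp
      rw [e3]
      ring
    rw [Finset.sum_congr rfl fun i _ => e1 i]
    simp only [Finset.sum_add_distrib]
    have e4 : ∑ i, (1 : Matrix (Fin n) (Fin n) ℂ) i k * (s * (v i * star (v l))) =
        s * (v k * star (v l)) := by
      rw [Finset.sum_eq_single k]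
      · simp
      · intro i _ hi
        rw [Matrix.one_apply_ne hi, zero_mul]
      · simp
    have e5 : ∑ i, star ((1 : Matrix (Fin n) (Fin n) ℂ) i l) * (s * (star (v i) * v k)) =
        s * (star (v l) * v k) := by
      rw [Finset.sum_eq_single l]
      · simp
      · intro i _ hi
        rw [Matrix.one_apply_ne hi, star_zero, zero_mul]
      · simp
    rw [e4, e5, ← Finset.mul_sum]
    push_cast
    ring
  rw [SR_eq]
  simp only [h1, add_smul, Finset.sum_add_distrib]
  rw [← SR_eq, hS]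
  congr 1
  simp only [Finset.smul_sum, smul_smul]

lemma trace_of_minr (B : Fin n → Fin n → Matrix κ κ ℂ) (hB : PosF B) (m : ℕ) (hm : 0 < m)
    (hS : SR B 1 = 1)
    (hmin : ∀ g : Matrix (Fin n) (Fin n) ℂ, Complex.normSq g.det ^ m ≤ (SR B g).det.re)
    (i j : Fin n) : (B i j).trace = if i = j then (m : ℂ) else 0 := by
  have key : ∀ v : Fin n → ℂ, (∑ k, ∑ l, (v k * star (v l)) • B k l).trace =
      m * ∑ k, v k * star (v k) := by
    intro v
    set Z := ∑ k, ∑ l, (v k * star (v l)) • B k l with hZ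
    set c : ℝ := ∑ i, Complex.normSq (v i) with hc
    have hZh : Z.IsHermitian := by
      by_cases hv : v = 0
      · have : Z = 0 := by
          rw [hZ, hv]; simp
        rw [this]
        exact Matrix.isHermitian_zero
      · exact (hB v hv).isHermitian
    have him : Z.trace = (Z.trace.re : ℂ) := by
      have h1 : star Z.trace = Z.trace := by
        rw [← Matrix.trace_conjTranspose, hZh.eq]
      exact (Complex.conj_eq_iff_re.mp h1).symm
    let f : ℝ → ℝ := fun s => (Matrix.det (1 + ((2 * s + s ^ 2 * c : ℝ) : ℂ) • Z)).re -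
      (1 + s * c) ^ (2 * m)
    have hf : ∀ s, 0 ≤ f s := by
      intro s
      have h1 := hmin (1 + (s : ℂ) • Matrix.vecMulVec (star v) v)
      rw [SR_shift B hS, det_shift, Complex.normSq_ofReal] at h1
      simp only [f]
      have h2 : (1 + s * c) ^ (2 * m) = ((1 + s * c) * (1 + s * c)) ^ m := by
        rw [pow_mul, pow_two]
      rw [h2]
      linarith
    have hf0 : f 0 = 0 := by simp [f]
    have hd : HasDerivAt f (2 * Z.trace.re - 2 * m * c) 0 := by
      have h1 := hasDerivAt_detr Z c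
      have h2 : HasDerivAt (fun s : ℝ => (1 + s * c) ^ (2 * m)) (2 * m * c) 0 := by
        have h3 : HasDerivAt (fun s : ℝ => 1 + s * c) c 0 := by
          simpa using ((hasDerivAt_id (0 : ℝ)).mul_const c).const_add 1
        have h4 := h3.fun_pow (2 * m)
        simpa using h4
      exact h1.fun_sub h2
    have hloc : IsLocalMin f 0 := by
      refine Filter.Eventually.of_forall fun s => ?_
      rw [hf0]
      exact hf s
    have h0 := hloc.hasDerivAt_eq_zero hd
    have h1 : Z.trace.re = m * c := by linarith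
    rw [him, h1, hc]
    push_cast
    congr 1
    refine Finset.sum_congr rfl fun i _ => ?_
    rw [Complex.star_def, Complex.mul_conj]
  have hmC : (m : ℂ) ≠ 0 := by exact_mod_cast hm.ne'
  have hp := polarize (Matrix.of fun k l => (m : ℂ)⁻¹ * (B k l).trace) (by
    intro v
    have h1 := key v
    simp only [Matrix.trace_sum, Matrix.trace_smul, smul_eq_mul] at h1
    have h2 : ∑ k, ∑ l, (v k * star (v l)) * ((m : ℂ)⁻¹ * (B k l).trace) =
        (m : ℂ)⁻¹ * ∑ k, ∑ l, (v k * star (v l)) * (B k l).trace := by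
      rw [Finset.mul_sum]
      refine Finset.sum_congr rfl fun k _ => ?_
      rw [Finset.mul_sum]
      refine Finset.sum_congr rfl fun l _ => ?_
      ring
    simp only [Matrix.of_apply]
    rw [h2, h1, ← mul_assoc, inv_mul_cancel₀ hmC, one_mul])
  have h1 := congrFun (congrFun hp i) j
  rw [Matrix.of_apply, Matrix.one_apply] at h1
  have h2 : (B i j).trace = (m : ℂ) * ((m : ℂ)⁻¹ * (B i j).trace) := by
    rw [← mul_assoc, mul_inv_cancel₀ hmC, one_mul]
  rw [h2, h1]
  split_ifs <;> simp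

lemma exists_sqrtr {A : Matrix κ κ ℂ} (hA : A.PosSemidef) :
    ∃ M : Matrix κ κ ℂ, A = M * Mᴴ := by
  have h := hA.1.spectral_theorem
  rw [Unitary.conjStarAlgAut_apply] at h
  refine ⟨(hA.1.eigenvectorUnitary : Matrix κ κ ℂ) *
    diagonal (fun i => ((Real.sqrt (hA.1.eigenvalues i) : ℝ) : ℂ)), ?_⟩
  rw [conjTranspose_mul, diagonal_conjTranspose]
  have h2 : (diagonal (fun i => ((Real.sqrt (hA.1.eigenvalues i) : ℝ) : ℂ))) *
      diagonal (star fun i => ((Real.sqrt (hA.1.eigenvalues i) : ℝ) : ℂ)) =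
      diagonal (RCLike.ofReal ∘ hA.1.eigenvalues) := by
    rw [diagonal_mul_diagonal]
    congr 1
    funext i
    have := hA.eigenvalues_nonneg i
    simp only [Pi.star_apply, Complex.star_def, Complex.conj_ofReal, Function.comp_apply]
    rw [← Complex.ofReal_mul, Real.mul_self_sqrt this]
    rfl
  conv_lhs => rw [h, ← h2]
  simp only [Matrix.mul_assoc]
  rfl

/-- **Operator scaling** for rectangular families. -/
theorem exists_scalingr (hn : 0 < n) {B : Fin n → Fin n → Matrix κ κ ℂ} (hB : PosF B) (m : ℕ)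
    (hm0 : 0 < m) (hm : Fintype.card κ = n * m) :
    ∃ (g : Matrix (Fin n) (Fin n) ℂ) (h : Matrix κ κ ℂ), g.det ≠ 0 ∧ h.det ≠ 0 ∧
      (∑ i, h * acr g B i i * hᴴ) = 1 ∧
      ∀ i j, (h * acr g B i j * hᴴ).trace = if i = j then (m : ℂ) else 0 := by
  obtain ⟨g₀, hg₀, hmax⟩ := exists_maxr hn hB m hm
  haveI : Nonempty (Fin n) := ⟨⟨0, hn⟩⟩
  have h10 : (1 : Matrix (Fin n) (Fin n) ℂ) ≠ 0 := one_ne_zero
  have hB1 : PosF (acr g₀ B) := acr_posF hg₀ hB
  have hSR : ∀ g, SR (acr g₀ B) g = SR B (g * g₀) := by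
    intro g
    unfold SR
    rw [acr_acr]
  have hS := SR_posDef hB1 h10
  obtain ⟨C, hC⟩ := exists_sqrtr hS.posSemidef
  have hSd : (SR (acr g₀ B) 1).det ≠ 0 := hS.det_pos.ne'
  have hCd : C.det ≠ 0 := by
    intro h0
    apply hSd
    rw [hC, Matrix.det_mul, h0, zero_mul]
  have hCu : IsUnit C.det := isUnit_iff_ne_zero.mpr hCd
  have hCCh : C⁻¹ * SR (acr g₀ B) 1 * (C⁻¹)ᴴ = 1 := by
    rw [hC, ← Matrix.mul_assoc, Matrix.nonsing_inv_mul _ hCu, Matrix.one_mul,
      ← Matrix.conjTranspose_mul, Matrix.nonsing_inv_mul _ hCu, Matrix.conjTranspose_one]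
  have hhd : (C⁻¹).det ≠ 0 := by
    rw [Matrix.det_nonsing_inv]
    simpa using hCd
  set B2 : Fin n → Fin n → Matrix κ κ ℂ := fun i j => C⁻¹ * acr g₀ B i j * (C⁻¹)ᴴ
    with hB2
  have hB2p : PosF B2 := conj_posFr hhd hB1
  have hdet : ∀ X : Matrix κ κ ℂ, (C⁻¹ * X * (C⁻¹)ᴴ).det.re =
      Complex.normSq (C⁻¹).det * X.det.re := by
    intro X
    rw [Matrix.det_mul, Matrix.det_mul, Matrix.det_conjTranspose]
    have : (C⁻¹).det * X.det * star (C⁻¹).det = (Complex.normSq (C⁻¹).det : ℂ) * X.det := by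
      rw [← Complex.mul_conj, Complex.star_def]
      ring
    rw [this, Complex.re_ofReal_mul]
  have hS2 : SR B2 1 = 1 := by
    rw [hB2, SR_conj, hCCh]
  have hone : Complex.normSq (C⁻¹).det * (SR (acr g₀ B) 1).det.re = 1 := by
    rw [← hdet, hCCh, Matrix.det_one, Complex.one_re]
  have hmin : ∀ g : Matrix (Fin n) (Fin n) ℂ, Complex.normSq g.det ^ m ≤ (SR B2 g).det.re := by
    intro g
    rw [hB2, SR_conj, hdet]
    have h1 := hmax (g * g₀)
    rw [← hSR g, Matrix.det_mul, map_mul, mul_pow] at h1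
    have h2 : SR B g₀ = SR (acr g₀ B) 1 := by rw [hSR, Matrix.one_mul]
    rw [h2] at h1
    have hp : 0 < Complex.normSq g₀.det ^ m := pow_pos (Complex.normSq_pos.mpr hg₀) m
    have h3 : Complex.normSq g.det ^ m * (SR (acr g₀ B) 1).det.re ≤
        (SR (acr g₀ B) g).det.re := by
      have h4 : Complex.normSq g₀.det ^ m *
          (Complex.normSq g.det ^ m * (SR (acr g₀ B) 1).det.re) ≤
          Complex.normSq g₀.det ^ m * (SR (acr g₀ B) g).det.re := by linarith
      exact le_of_mul_le_mul_left h4 hp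
    have h5 := mul_le_mul_of_nonneg_left h3 (Complex.normSq_nonneg (C⁻¹).det)
    have h6 : Complex.normSq (C⁻¹).det * (Complex.normSq g.det ^ m *
        (SR (acr g₀ B) 1).det.re) =
        Complex.normSq g.det ^ m * (Complex.normSq (C⁻¹).det *
        (SR (acr g₀ B) 1).det.re) := by ring
    rw [h6, hone, mul_one] at h5
    exact h5
  have htr := trace_of_minr B2 hB2p m hm0 hS2 hmin
  refine ⟨g₀, C⁻¹, hg₀, hhd, ?_, htr⟩
  have h1 : (∑ i, C⁻¹ * acr g₀ B i i * (C⁻¹)ᴴ) = ∑ i, acr 1 B2 i i := by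
    refine Finset.sum_congr rfl fun i _ => ?_
    have : acr 1 B2 i i = B2 i i := by
      unfold acr
      rw [Finset.sum_eq_single i, Finset.sum_eq_single i]
      · simp
      · intro l _ hl
        rw [Matrix.one_apply_ne (Ne.symm hl)]
        simp
      · simp
      · intro k _ hk
        refine Finset.sum_eq_zero fun l _ => ?_
        rw [Matrix.one_apply_ne (Ne.symm hk)]
        simp
      · simp
    rw [this]
  rw [h1]
  exact hS2

end Pool.Agent.H94.EB
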