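import Mathlib
import Pool.Agent.H21.Wick
import Pool.Agent.H94.MD.Phi

set_option autoImplicit false
open scoped ComplexOrder
open Matrix Equiv Finset MeasureTheory

namespace Pool.Agent.H94.EB

open Pool.Agent.H21.Wick Pool.Agent.H94.MD

variable {ι : Type} [Fintype ι] [DecidableEq ι]

/-- the linear form of a matrix on the Gaussian matrix -/
noncomputable def tz (A : Matrix ι ι ℂ) (Z : ι × ι → ℂ) : ℂ := ∑ v, A v.1 v.2 * Z v

/-- the conjugate of the determinant of the Gaussian matrix -/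
noncomputable def dz (Z : ι × ι → ℂ) : ℂ := ∑ τ : Perm ι, sg τ * ∏ a, star (Z (a, τ a))

lemma mdg_int (A : ι → Matrix ι ι ℂ) :
    Integrable (fun Z : ι × ι → ℂ => (∏ k, tz (A k) Z) * dz Z * wt Z) ∧
    ∫ Z : ι × ι → ℂ, (∏ k, tz (A k) Z) * dz Z * wt Z =
      (Real.pi : ℂ) ^ Fintype.card (ι × ι) * mdg A := by
  have hw := fun τ : Perm ι => wick (fun (k : ι) (v : ι × ι) => A k v.1 v.2)
    (fun (k : ι) (v : ι × ι) => if v = (k, τ k) then (1 : ℂ) else 0)
  have hexp : ∀ Z : ι × ι → ℂ, (∏ k, tz (A k) Z) * dz Z * wt Z =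
      ∑ τ : Perm ι, sg τ * ((∏ k, ∑ v : ι × ι, A k v.1 v.2 * Z v) *
        (∏ k, ∑ v : ι × ι, (if v = (k, τ k) then (1 : ℂ) else 0) * star (Z v)) * wt Z) := by
    intro Z
    rw [dz, Finset.mul_sum, Finset.sum_mul]
    refine Finset.sum_congr rfl fun τ _ => ?_
    have h1 : ∀ k, ∑ v : ι × ι, (if v = (k, τ k) then (1 : ℂ) else 0) * star (Z v) =
        star (Z (k, τ k)) := by
      intro k
      rw [Finset.sum_eq_single (k, τ k)]
      · simp
      · intro v _ hv
        simp [hv]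
      · simp
    rw [Finset.prod_congr rfl fun k _ => h1 k]
    simp only [tz]
    ring
  constructor
  · simp only [hexp]
    exact integrable_finsetSum _ fun τ _ => ((hw τ).1).const_mul _
  · simp only [hexp]
    rw [integral_finsetSum _ fun τ _ => ((hw τ).1).const_mul _]
    have h2 : ∀ τ : Perm ι, ∫ Z : ι × ι → ℂ, sg τ * ((∏ k, ∑ v : ι × ι, A k v.1 v.2 * Z v) *
        (∏ k, ∑ v : ι × ι, (if v = (k, τ k) then (1 : ℂ) else 0) * star (Z v)) * wt Z) =
        (Real.pi : ℂ) ^ Fintype.card (ι × ι) *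
          ∑ σ : Perm ι, sg τ * ∏ k, A k (σ k) (τ (σ k)) := by
      intro τ
      rw [integral_const_mul, (hw τ).2]
      have h3 : ∀ σ : Perm ι, ∏ k, ∑ v : ι × ι, A k v.1 v.2 *
          (if v = (σ k, τ (σ k)) then (1 : ℂ) else 0) = ∏ k, A k (σ k) (τ (σ k)) := by
        intro σ
        refine Finset.prod_congr rfl fun k _ => ?_
        rw [Finset.sum_eq_single (σ k, τ (σ k))]
        · simp
        · intro v _ hv
          simp [hv]
        · simp
      rw [Finset.sum_congr rfl fun σ _ => h3 σ, ← Finset.mul_sum]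
      ring
    rw [Finset.sum_congr rfl fun τ _ => h2 τ, ← Finset.mul_sum]
    congr 1
    rw [Finset.sum_comm, mdg]
    refine Finset.sum_congr rfl fun σ _ => ?_
    rw [← Equiv.sum_comp (Equiv.mulRight (σ⁻¹))]
    refine Finset.sum_congr rfl fun ρ _ => ?_
    simp only [Equiv.coe_mulRight, sg_mul, sg_inv, Perm.mul_apply]
    have h4 : ∏ k, A k (σ k) (ρ (σ⁻¹ (σ k))) = ∏ k, A k (σ k) (ρ k) := by simp
    rw [h4]
    ring

lemma Phi_int (B : ι → ι → Matrix ι ι ℂ) :
    Integrable (fun Z : ι × ι → ℂ => (Matrix.of fun x y => tz (B x y) Z).det * dz Z * wt Z) ∧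
    ∫ Z : ι × ι → ℂ, (Matrix.of fun x y => tz (B x y) Z).det * dz Z * wt Z =
      (Real.pi : ℂ) ^ Fintype.card (ι × ι) * Phi B := by
  have hexp : ∀ Z : ι × ι → ℂ, (Matrix.of fun x y => tz (B x y) Z).det * dz Z * wt Z =
      ∑ σ : Perm ι, sg σ * ((∏ k, tz (B k (σ k)) Z) * dz Z * wt Z) := by
    intro Z
    rw [det_eq_sg, Finset.sum_mul, Finset.sum_mul]
    refine Finset.sum_congr rfl fun σ _ => ?_
    simp only [Matrix.of_apply]
    ring
  constructor
  · simp only [hexp]
    exact integrable_finsetSum _ fun σ _ => ((mdg_int fun k => B k (σ k)).1).const_mul _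
  · simp only [hexp]
    rw [integral_finsetSum _ fun σ _ => ((mdg_int fun k => B k (σ k)).1).const_mul _, Phi_eq,
      Finset.mul_sum]
    refine Finset.sum_congr rfl fun σ _ => ?_
    rw [integral_const_mul, (mdg_int fun k => B k (σ k)).2]
    ring

lemma mdg_const (A : Matrix ι ι ℂ) : mdg (fun _ : ι => A) = (Fintype.card ι).factorial * A.det := by
  rw [mdg_eq_col]
  have : ∀ ρ : Perm ι, sg ρ * (Matrix.of fun i k => A i (ρ k)).det = A.det := by
    intro ρ
    have h : (Matrix.of fun i k => A i (ρ k)) = A.submatrix id ρ := rfl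
    rw [h, Matrix.det_permute', ← mul_assoc]
    have := sg_sq ρ
    unfold sg at this
    unfold sg
    rw [this, one_mul]
  rw [Finset.sum_congr rfl fun ρ _ => this ρ]
  simp [Fintype.card_perm]

lemma mdg_sum {C : Type} [Fintype C] [DecidableEq C] (w : C → ℂ) (G : C → Matrix ι ι ℂ) :
    mdg (fun _ : ι => ∑ c, w c • G c) = ∑ f : ι → C, (∏ s, w (f s)) * mdg (fun s => G (f s)) := by
  unfold mdg
  simp only [Finset.mul_sum]
  rw [Finset.sum_comm]
  conv_rhs => rw [Finset.sum_comm]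
  rw [Finset.sum_comm]
  refine Finset.sum_congr rfl fun α _ => ?_
  conv_rhs => rw [Finset.sum_comm]
  refine Finset.sum_congr rfl fun ρ _ => ?_
  have h1 : ∏ k : ι, (∑ c, w c • G c) (α k) (ρ k) =
      ∑ f : ι → C, ∏ k, w (f k) * G (f k) (α k) (ρ k) := by
    simp only [Matrix.sum_apply, Matrix.smul_apply, smul_eq_mul]
    rw [Finset.prod_univ_sum, Fintype.piFinset_univ]
  rw [h1, Finset.mul_sum]
  refine Finset.sum_congr rfl fun f _ => ?_
  rw [Finset.prod_mul_distrib]
  ring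

end Pool.Agent.H94.EB
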