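import Mathlib
import Pool.Agent.H21.Wick
import Pool.Agent.H94.EB.Zint

set_option autoImplicit false
open scoped ComplexOrder
open Matrix Equiv Finset MeasureTheory

namespace Pool.Agent.H94.EB

open Pool.Agent.H21.Wick Pool.Agent.H94.MD

/-! ### power series -/

section PS

open PowerSeries

/-- the geometric series -/
noncomputable def gs (a : ℂ) : PowerSeries ℂ := PowerSeries.mk fun n => a ^ n

lemma gs_eq (a : ℂ) : gs a = PowerSeries.rescale a (PowerSeries.mk 1) := by
  ext n
  simp [gs]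

lemma one_sub_mul_gs (a : ℂ) : (1 - PowerSeries.C a * PowerSeries.X) * gs a = 1 := by
  have h : (PowerSeries.mk 1 : PowerSeries ℂ) * (1 - PowerSeries.X) = 1 := by
    have := PowerSeries.mk_one_mul_one_sub_eq_one (S := ℂ)
    exact this
  have h2 := congrArg (PowerSeries.rescale a) h
  rw [map_mul, map_sub, map_one, PowerSeries.rescale_X, ← gs_eq, mul_comm] at h2
  exact h2

lemma coeff_gs_pow (a : ℂ) (b n : ℕ) :
    PowerSeries.coeff n (gs a ^ (b + 1)) = a ^ n * ((b + n).choose b : ℂ) := by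
  rw [gs_eq, ← map_pow, PowerSeries.mk_one_pow_eq_mk_choose_add, PowerSeries.coeff_rescale,
    PowerSeries.coeff_mk]

/-- the explicit moment -/
noncomputable def sN (A D x : ℂ) (N : ℕ) : ℂ :=
  ∑ b ∈ range (N + 1), if 2 * b ≤ N then x ^ b * ∑ i ∈ antidiagonal (N - 2 * b),
    (A ^ i.1 * ((b + i.1).choose b : ℂ)) * (D ^ i.2 * ((b + i.2).choose b : ℂ)) else 0

lemma sN_eq (A D x p q : ℂ) (h1 : p + q = A + D) (h2 : p * q = A * D - x) (N : ℕ) :
    sN A D x N = ∑ i ∈ antidiagonal N, p ^ i.1 * q ^ i.2 := by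
  set V : PowerSeries ℂ := gs A * gs D with hV
  set G : PowerSeries ℂ := (1 - PowerSeries.C A * PowerSeries.X) *
    (1 - PowerSeries.C D * PowerSeries.X) with hG
  have hGV : G * V = 1 := by
    rw [hG, hV]
    calc _ = ((1 - PowerSeries.C A * PowerSeries.X) * gs A) *
        ((1 - PowerSeries.C D * PowerSeries.X) * gs D) := by ring
      _ = 1 := by rw [one_sub_mul_gs, one_sub_mul_gs, one_mul]
  set w : PowerSeries ℂ := PowerSeries.C x * PowerSeries.X ^ 2 * V with hw
  set K : PowerSeries ℂ := V * ∑ b ∈ range (N + 1), w ^ b with hK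
  set R : PowerSeries ℂ := gs p * gs q with hR
  have hQ : G - PowerSeries.C x * PowerSeries.X ^ 2 =
      (1 - PowerSeries.C p * PowerSeries.X) * (1 - PowerSeries.C q * PowerSeries.X) := by
    have e1 : PowerSeries.C (p + q) = PowerSeries.C (A + D) := by rw [h1]
    have e2 : PowerSeries.C (p * q) = PowerSeries.C (A * D - x) := by rw [h2]
    simp only [map_add, map_mul, map_sub] at e1 e2
    rw [hG]
    linear_combination PowerSeries.X * e1 - PowerSeries.X ^ 2 * e2
  have hRQ : (G - PowerSeries.C x * PowerSeries.X ^ 2) * R = 1 := by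
    rw [hQ, hR]
    calc _ = ((1 - PowerSeries.C p * PowerSeries.X) * gs p) *
        ((1 - PowerSeries.C q * PowerSeries.X) * gs q) := by ring
      _ = 1 := by rw [one_sub_mul_gs, one_sub_mul_gs, one_mul]
  have hgeo : (∑ b ∈ range (N + 1), w ^ b) * (1 - w) = 1 - w ^ (N + 1) := geom_sum_mul_neg w (N + 1)
  have hKR : K = R - R * w ^ (N + 1) := by
    have h3 : K * (G - PowerSeries.C x * PowerSeries.X ^ 2) = 1 - w ^ (N + 1) := by
      have h4 : G - PowerSeries.C x * PowerSeries.X ^ 2 = G * (1 - w) := by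
        rw [hw]
        linear_combination (PowerSeries.C x * PowerSeries.X ^ 2) * hGV
      rw [h4, hK, ← hgeo]
      linear_combination ((∑ b ∈ range (N + 1), w ^ b) * (1 - w)) * hGV
    calc K = K * ((G - PowerSeries.C x * PowerSeries.X ^ 2) * R) := by rw [hRQ, mul_one]
      _ = (K * (G - PowerSeries.C x * PowerSeries.X ^ 2)) * R := by ring
      _ = R - R * w ^ (N + 1) := by rw [h3]; ring
  have hcR : PowerSeries.coeff N R = ∑ i ∈ antidiagonal N, p ^ i.1 * q ^ i.2 := by
    rw [hR, PowerSeries.coeff_mul]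
    simp [gs]
  have hcw : PowerSeries.coeff N (R * w ^ (N + 1)) = 0 := by
    have : R * w ^ (N + 1) = PowerSeries.X ^ (2 * (N + 1)) *
        (R * (PowerSeries.C x * V) ^ (N + 1)) := by
      rw [hw, pow_mul]
      ring
    rw [this, PowerSeries.coeff_X_pow_mul', if_neg (by omega)]
  have hcK : PowerSeries.coeff N K = sN A D x N := by
    rw [hK, Finset.mul_sum, map_sum, sN]
    refine Finset.sum_congr rfl fun b _ => ?_
    have h5 : V * w ^ b = PowerSeries.X ^ (2 * b) *
        (PowerSeries.C (x ^ b) * (gs A ^ (b + 1) * gs D ^ (b + 1))) := by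
      rw [hw, hV, pow_mul, map_pow]
      ring
    rw [h5, PowerSeries.coeff_X_pow_mul']
    split_ifs with hb
    · rw [PowerSeries.coeff_C_mul, PowerSeries.coeff_mul]
      congr 1
      refine Finset.sum_congr rfl fun i _ => ?_
      rw [coeff_gs_pow, coeff_gs_pow]
    · rfl
  rw [← hcK, hKR, map_sub, hcw, sub_zero, hcR]

end PS

/-! ### moments -/

lemma mom (a b c d : ℕ) :
    Integrable (fun u : Fin 2 → ℂ => (u 0 ^ a * star (u 0) ^ b) * (u 1 ^ c * star (u 1) ^ d) *
      wt u) ∧
    ∫ u : Fin 2 → ℂ, (u 0 ^ a * star (u 0) ^ b) * (u 1 ^ c * star (u 1) ^ d) * wt u =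
      (if a = b then (Real.pi : ℂ) * (a.factorial : ℂ) else 0) *
        (if c = d then (Real.pi : ℂ) * (c.factorial : ℂ) else 0) := by
  have h : ∀ u : Fin 2 → ℂ, (u 0 ^ a * star (u 0) ^ b) * (u 1 ^ c * star (u 1) ^ d) * wt u =
      ∏ v : Fin 2, mono ((![a, c] : Fin 2 → ℕ) v) ((![b, d] : Fin 2 → ℕ) v) (u v) := by
    intro u
    rw [wt, Fin.prod_univ_two, Fin.prod_univ_two]
    simp only [mono, Matrix.cons_val_zero, Matrix.cons_val_one]
    ring
  constructor
  · simp only [h]
    exact Integrable.fintype_prod (fun v => integrable_mono _ _)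
  · simp only [h]
    rw [integral_fintype_prod_volume_eq_prod
      (f := fun (v : Fin 2) z => mono ((![a, c] : Fin 2 → ℕ) v) ((![b, d] : Fin 2 → ℕ) v) z)]
    rw [Fin.prod_univ_two, integral_mono_ite, integral_mono_ite]
    simp

lemma chf (a b : ℕ) : ((a + b).choose a : ℂ) * (a.factorial : ℂ) * (b.factorial : ℂ) =
    ((a + b).factorial : ℂ) := by
  have h := Nat.add_choose_mul_factorial_mul_factorial b a
  rw [add_comm b a] at h
  have h2 : (a + b).choose a * a.factorial * b.factorial = (a + b).factorial := by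
    rw [← h]; ring
  exact_mod_cast h2

lemma dp_add (x y : ℂ) (n : ℕ) : (x + y) ^ n / (n.factorial : ℂ) =
    ∑ i ∈ antidiagonal n, (x ^ i.1 / (i.1.factorial : ℂ)) * (y ^ i.2 / (i.2.factorial : ℂ)) := by
  rw [(Commute.all x y).add_pow', Finset.sum_div]
  refine Finset.sum_congr rfl fun i hi => ?_
  have hn : i.1 + i.2 = n := Finset.HasAntidiagonal.mem_antidiagonal.mp hi
  have h1 : (n.choose i.1 : ℂ) * (i.1.factorial : ℂ) * (i.2.factorial : ℂ) =
      (n.factorial : ℂ) := by
    have := chf i.1 i.2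
    rw [hn] at this
    exact this
  have h2 : (i.1.factorial : ℂ) ≠ 0 := by exact_mod_cast i.1.factorial_ne_zero
  have h3 : (i.2.factorial : ℂ) ≠ 0 := by exact_mod_cast i.2.factorial_ne_zero
  have h4 : (n.factorial : ℂ) ≠ 0 := by exact_mod_cast n.factorial_ne_zero
  rw [nsmul_eq_mul]
  field_simp
  rw [← h1]
  ring

lemma sum_ad_diag (n N : ℕ) (hn : n ≤ N) (g : ℕ → ℂ) :
    ∑ j ∈ antidiagonal n, (if j.1 = j.2 then g j.1 else 0) =
      ∑ b ∈ range (N + 1), if 2 * b = n then g b else 0 := by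
  rcases Nat.even_or_odd' n with ⟨c, hc | hc⟩
  · rw [Finset.sum_eq_single (c, c), Finset.sum_eq_single c]
    · rw [if_pos rfl, if_pos hc.symm]
    · intro b _ hb
      rw [if_neg]
      omega
    · intro h
      exact absurd (Finset.mem_range.mpr (by omega)) h
    · rintro ⟨i, j⟩ hij hne
      have h1 : i + j = n := Finset.HasAntidiagonal.mem_antidiagonal.mp hij
      rw [if_neg]
      intro h2
      apply hne
      simp only at h2
      have : i = c := by omega
      rw [← h2, this]
    · intro h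
      exact absurd (Finset.HasAntidiagonal.mem_antidiagonal.mpr (by show c + c = n; omega)) h
  · rw [Finset.sum_eq_zero, Finset.sum_eq_zero]
    · intro b _
      rw [if_neg]
      omega
    · rintro ⟨i, j⟩ hij
      have h1 : i + j = n := Finset.HasAntidiagonal.mem_antidiagonal.mp hij
      rw [if_neg]
      intro h2
      simp only at h2
      omega

lemma int_pow (A B C D : ℂ) (N : ℕ) :
    Integrable (fun u : Fin 2 → ℂ => ((A * (u 0 * star (u 0)) + D * (u 1 * star (u 1))) +
      (B * (u 0 * star (u 1)) + C * (u 1 * star (u 0)))) ^ N / (N.factorial : ℂ) * wt u) ∧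
    ∫ u : Fin 2 → ℂ, ((A * (u 0 * star (u 0)) + D * (u 1 * star (u 1))) +
      (B * (u 0 * star (u 1)) + C * (u 1 * star (u 0)))) ^ N / (N.factorial : ℂ) * wt u =
      (Real.pi : ℂ) ^ 2 * sN A D (B * C) N := by
  have hexp : ∀ u : Fin 2 → ℂ, ((A * (u 0 * star (u 0)) + D * (u 1 * star (u 1))) +
      (B * (u 0 * star (u 1)) + C * (u 1 * star (u 0)))) ^ N / (N.factorial : ℂ) * wt u =
      ∑ m ∈ antidiagonal N, ∑ i ∈ antidiagonal m.1, ∑ j ∈ antidiagonal m.2,
        (A ^ i.1 * D ^ i.2 * B ^ j.1 * C ^ j.2 / ((i.1.factorial : ℂ) * (i.2.factorial : ℂ) *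
          (j.1.factorial : ℂ) * (j.2.factorial : ℂ))) *
        ((u 0 ^ (i.1 + j.1) * star (u 0) ^ (i.1 + j.2)) *
          (u 1 ^ (i.2 + j.2) * star (u 1) ^ (i.2 + j.1)) * wt u) := by
    intro u
    rw [dp_add, Finset.sum_mul]
    refine Finset.sum_congr rfl fun m _ => ?_
    rw [dp_add, dp_add, Finset.sum_mul_sum, Finset.sum_mul]
    refine Finset.sum_congr rfl fun i _ => ?_
    rw [Finset.sum_mul]
    refine Finset.sum_congr rfl fun j _ => ?_
    simp only [mul_pow, pow_add, div_eq_mul_inv, mul_inv]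
    ring
  have hint : ∀ (m i j : ℕ × ℕ), Integrable (fun u : Fin 2 → ℂ =>
      (A ^ i.1 * D ^ i.2 * B ^ j.1 * C ^ j.2 / ((i.1.factorial : ℂ) * (i.2.factorial : ℂ) *
          (j.1.factorial : ℂ) * (j.2.factorial : ℂ))) *
        ((u 0 ^ (i.1 + j.1) * star (u 0) ^ (i.1 + j.2)) *
          (u 1 ^ (i.2 + j.2) * star (u 1) ^ (i.2 + j.1)) * wt u)) :=
    fun m i j => ((mom _ _ _ _).1).const_mul _
  constructor
  · simp only [hexp]
    exact integrable_finsetSum _ fun m _ => integrable_finsetSum _ fun i _ =>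
      integrable_finsetSum _ fun j _ => hint m i j
  · simp only [hexp]
    rw [integral_finsetSum _ fun m _ => integrable_finsetSum _ fun i _ =>
      integrable_finsetSum _ fun j _ => hint m i j]
    have h1 : ∀ m ∈ antidiagonal N, ∫ u : Fin 2 → ℂ, ∑ i ∈ antidiagonal m.1,
        ∑ j ∈ antidiagonal m.2,
        (A ^ i.1 * D ^ i.2 * B ^ j.1 * C ^ j.2 / ((i.1.factorial : ℂ) * (i.2.factorial : ℂ) *
          (j.1.factorial : ℂ) * (j.2.factorial : ℂ))) *
        ((u 0 ^ (i.1 + j.1) * star (u 0) ^ (i.1 + j.2)) *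
          (u 1 ^ (i.2 + j.2) * star (u 1) ^ (i.2 + j.1)) * wt u) =
        (Real.pi : ℂ) ^ 2 * ∑ b ∈ range (N + 1), if 2 * b = m.2 then
          (B * C) ^ b * ∑ i ∈ antidiagonal m.1,
            (A ^ i.1 * ((b + i.1).choose b : ℂ)) * (D ^ i.2 * ((b + i.2).choose b : ℂ)) else 0 := by
      intro m hm
      have hmN : m.1 + m.2 = N := Finset.HasAntidiagonal.mem_antidiagonal.mp hm
      rw [integral_finsetSum _ fun i _ => integrable_finsetSum _ fun j _ => hint m i j]
      have h2 : ∀ i ∈ antidiagonal m.1, ∫ u : Fin 2 → ℂ, ∑ j ∈ antidiagonal m.2,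
          (A ^ i.1 * D ^ i.2 * B ^ j.1 * C ^ j.2 / ((i.1.factorial : ℂ) * (i.2.factorial : ℂ) *
          (j.1.factorial : ℂ) * (j.2.factorial : ℂ))) *
          ((u 0 ^ (i.1 + j.1) * star (u 0) ^ (i.1 + j.2)) *
          (u 1 ^ (i.2 + j.2) * star (u 1) ^ (i.2 + j.1)) * wt u) =
          (Real.pi : ℂ) ^ 2 * ∑ b ∈ range (N + 1), if 2 * b = m.2 then
            (B * C) ^ b * ((A ^ i.1 * ((b + i.1).choose b : ℂ)) *
              (D ^ i.2 * ((b + i.2).choose b : ℂ))) else 0 := by
        intro i _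
        rw [integral_finsetSum _ fun j _ => hint m i j,
          ← sum_ad_diag m.2 N (by omega) (fun b => (B * C) ^ b *
            ((A ^ i.1 * ((b + i.1).choose b : ℂ)) * (D ^ i.2 * ((b + i.2).choose b : ℂ)))),
          Finset.mul_sum]
        refine Finset.sum_congr rfl fun j _ => ?_
        rw [integral_const_mul, (mom _ _ _ _).2]
        by_cases hj : j.1 = j.2
        · rw [if_pos hj, if_pos (by rw [hj]), if_pos (by rw [hj]), ← hj]
          have e1 : ((j.1 + i.1).choose j.1 : ℂ) * (j.1.factorial : ℂ) * (i.1.factorial : ℂ) =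
              ((i.1 + j.1).factorial : ℂ) := by
            rw [add_comm i.1 j.1]
            exact chf j.1 i.1
          have e2 : ((j.1 + i.2).choose j.1 : ℂ) * (j.1.factorial : ℂ) * (i.2.factorial : ℂ) =
              ((i.2 + j.1).factorial : ℂ) := by
            rw [add_comm i.2 j.1]
            exact chf j.1 i.2
          have n1 : (i.1.factorial : ℂ) ≠ 0 := by exact_mod_cast i.1.factorial_ne_zero
          have n2 : (i.2.factorial : ℂ) ≠ 0 := by exact_mod_cast i.2.factorial_ne_zero
          have n3 : (j.1.factorial : ℂ) ≠ 0 := by exact_mod_cast j.1.factorial_ne_zero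
          rw [← e1, ← e2]
          field_simp
          ring
        · have hne : ¬ (i.1 + j.1 = i.1 + j.2) := by omega
          rw [if_neg hj, if_neg hne]
          simp
      rw [Finset.sum_congr rfl h2, ← Finset.mul_sum, Finset.sum_comm]
      congr 1
      refine Finset.sum_congr rfl fun b _ => ?_
      split_ifs
      · rw [Finset.mul_sum]
      · simp
    rw [Finset.sum_congr rfl h1, ← Finset.mul_sum, Finset.sum_comm, sN]
    congr 1
    refine Finset.sum_congr rfl fun b _ => ?_
    split_ifs with hb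
    · rw [Finset.sum_eq_single (N - 2 * b, 2 * b)]
      · rw [if_pos rfl]
      · rintro ⟨i, j⟩ hij hne
        have h1 : i + j = N := Finset.HasAntidiagonal.mem_antidiagonal.mp hij
        rw [if_neg]
        intro h2
        apply hne
        simp only at h2
        ext
        · simp only; omega
        · simp only; omega
      · intro h
        exact absurd (Finset.HasAntidiagonal.mem_antidiagonal.mpr (by show N - 2 * b + 2 * b = N; omega)) h
    · refine Finset.sum_eq_zero ?_
      rintro ⟨i, j⟩ hij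
      have h1 : i + j = N := Finset.HasAntidiagonal.mem_antidiagonal.mp hij
      rw [if_neg]
      intro h2
      simp only at h2
      omega

end Pool.Agent.H94.EB
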