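import Mathlib
import Pool.Agent.H94.EB.Num
import Pool.Agent.H94.EB.Coef

set_option autoImplicit false
open scoped ComplexOrder
open Matrix Equiv Finset MeasureTheory

namespace Pool.Agent.H94.EB

open Pool.Agent.H21.Wick Pool.Agent.H94.MD

variable {ι : Type} [Fintype ι] [DecidableEq ι]

/-- the entries of the rank one matrix of `u` -/
noncomputable def uu (u : Fin 2 → ℂ) (c : Fin 2 × Fin 2) : ℂ := u c.1 * star (u c.2)

lemma gam_int (f : ι → Fin 2 × Fin 2) :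
    Integrable (fun u : Fin 2 → ℂ => (∏ s, uu u (f s)) * wt u) := by
  have h := integrable_monomial (α := ι) (K := Fin 2) (fun s => (f s).1) (fun s => (f s).2)
  refine h.congr (Filter.Eventually.of_forall fun u => ?_)
  simp only [uu]
  rw [Finset.prod_mul_distrib]

/-- the Gaussian moments -/
noncomputable def gam (f : ι → Fin 2 × Fin 2) : ℂ := ∫ u : Fin 2 → ℂ, (∏ s, uu u (f s)) * wt u

lemma avg_det (G : Fin 2 × Fin 2 → Matrix ι ι ℂ) :
    Integrable (fun u : Fin 2 → ℂ => (∑ c, uu u c • G c).det * wt u) ∧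
    ((Fintype.card ι).factorial : ℂ) * ∫ u : Fin 2 → ℂ, (∑ c, uu u c • G c).det * wt u =
      ∑ f : ι → Fin 2 × Fin 2, gam f * mdg (fun s => G (f s)) := by
  have hN : ((Fintype.card ι).factorial : ℂ) ≠ 0 := by
    exact_mod_cast (Fintype.card ι).factorial_ne_zero
  have hexp : ∀ u : Fin 2 → ℂ, (∑ c, uu u c • G c).det * wt u =
      ∑ f : ι → Fin 2 × Fin 2, (mdg (fun s => G (f s)) / ((Fintype.card ι).factorial : ℂ)) *
        ((∏ s, uu u (f s)) * wt u) := by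
    intro u
    have h1 := mdg_const (∑ c, uu u c • G c)
    rw [mdg_sum] at h1
    have h2 : (∑ c, uu u c • G c).det = (∑ f : ι → Fin 2 × Fin 2, (∏ s, uu u (f s)) *
        mdg (fun s => G (f s))) / ((Fintype.card ι).factorial : ℂ) := by
      rw [h1]
      field_simp
    rw [h2, Finset.sum_div, Finset.sum_mul]
    refine Finset.sum_congr rfl fun f _ => ?_
    ring
  constructor
  · simp only [hexp]
    exact integrable_finsetSum _ fun f _ => (gam_int f).const_mul _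
  · simp only [hexp]
    rw [integral_finsetSum _ fun f _ => (gam_int f).const_mul _, Finset.mul_sum]
    refine Finset.sum_congr rfl fun f _ => ?_
    rw [integral_const_mul]
    have : ∫ u : Fin 2 → ℂ, (∏ s, uu u (f s)) * wt u = gam f := rfl
    rw [this]
    field_simp

lemma avg_num (g : Fin 2 × Fin 2 → ℂ) :
    ∫ u : Fin 2 → ℂ, (∑ c, uu u c * g c) ^ Fintype.card ι * wt u =
      ∑ f : ι → Fin 2 × Fin 2, gam f * ∏ s, g (f s) := by
  have hexp : ∀ u : Fin 2 → ℂ, (∑ c, uu u c * g c) ^ Fintype.card ι * wt u =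
      ∑ f : ι → Fin 2 × Fin 2, (∏ s, g (f s)) * ((∏ s, uu u (f s)) * wt u) := by
    intro u
    rw [← Finset.card_univ, ← Finset.prod_const, Finset.prod_univ_sum, Fintype.piFinset_univ,
      Finset.sum_mul]
    refine Finset.sum_congr rfl fun f _ => ?_
    rw [Finset.prod_mul_distrib]
    ring
  simp only [hexp]
  rw [integral_finsetSum _ fun f _ => (gam_int f).const_mul _]
  refine Finset.sum_congr rfl fun f _ => ?_
  rw [integral_const_mul, mul_comm]
  rfl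

lemma avg_num_val (g : Fin 2 × Fin 2 → ℂ) (p q : ℂ) (h1 : p + q = g (0, 0) + g (1, 1))
    (h2 : p * q = g (0, 0) * g (1, 1) - g (0, 1) * g (1, 0)) (N : ℕ) :
    ∫ u : Fin 2 → ℂ, (∑ c, uu u c * g c) ^ N * wt u =
      (N.factorial : ℂ) * ((Real.pi : ℂ) ^ 2 * ∑ i ∈ antidiagonal N, p ^ i.1 * q ^ i.2) := by
  have h := (int_pow (g (0, 0)) (g (0, 1)) (g (1, 0)) (g (1, 1)) N).2
  rw [sN_eq _ _ _ p q h1 h2] at h
  rw [← h, ← integral_const_mul]
  refine integral_congr_ae (Filter.Eventually.of_forall fun u => ?_)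
  have hN : (N.factorial : ℂ) ≠ 0 := by exact_mod_cast N.factorial_ne_zero
  have e : ∑ c, uu u c * g c = (g (0, 0) * (u 0 * star (u 0)) + g (1, 1) * (u 1 * star (u 1))) +
      (g (0, 1) * (u 0 * star (u 1)) + g (1, 0) * (u 1 * star (u 0))) := by
    rw [Fintype.sum_prod_type]
    simp only [Fin.sum_univ_two, uu]
    ring
  simp only
  rw [e]
  field_simp

/-- `2 x 2` adjugate of an array -/
def adj2 {M : Type*} [Neg M] (F : Fin 2 → Fin 2 → M) : Fin 2 → Fin 2 → M :=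
  ![![F 1 1, -F 0 1], ![-F 1 0, F 0 0]]

/-- the matrix `∑ u_i conj(u_j) F_ij` -/
noncomputable def Au (F : Fin 2 → Fin 2 → Matrix ι ι ℂ) (u : Fin 2 → ℂ) : Matrix ι ι ℂ :=
  ∑ i, ∑ j, (u i * star (u j)) • F i j

/-- the family `x F + adj F` -/
noncomputable def Gx (F : Fin 2 → Fin 2 → Matrix ι ι ℂ) (x : ℂ) (c : Fin 2 × Fin 2) :
    Matrix ι ι ℂ := x • F c.1 c.2 + adj2 F c.1 c.2

lemma sum_Gx (F : Fin 2 → Fin 2 → Matrix ι ι ℂ) (x : ℂ) (u : Fin 2 → ℂ) :
    ∑ c, uu u c • Gx F x c = x • Au F u + Au (adj2 F) u := by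
  rw [Fintype.sum_prod_type]
  simp only [Au, uu, Gx, Fin.sum_univ_two, smul_add, smul_smul]
  simp only [mul_comm x]
  abel

lemma tz_add (A B : Matrix ι ι ℂ) (Z : ι × ι → ℂ) : tz (A + B) Z = tz A Z + tz B Z := by
  simp only [tz, Matrix.add_apply, add_mul, Finset.sum_add_distrib]

lemma tz_smul (c : ℂ) (A : Matrix ι ι ℂ) (Z : ι × ι → ℂ) : tz (c • A) Z = c * tz A Z := by
  simp only [tz, Matrix.smul_apply, smul_eq_mul, Finset.mul_sum, mul_assoc]

lemma tz_neg (A : Matrix ι ι ℂ) (Z : ι × ι → ℂ) : tz (-A) Z = -tz A Z := by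
  simp only [tz, Matrix.neg_apply, neg_mul, Finset.sum_neg_distrib]

lemma tz_Gx (F : Fin 2 → Fin 2 → Matrix ι ι ℂ) (x : ℂ) (c : Fin 2 × Fin 2) (Z : ι × ι → ℂ) :
    tz (Gx F x c) Z = x * tz (F c.1 c.2) Z + adj2 (fun i j => tz (F i j) Z) c.1 c.2 := by
  rw [Gx, tz_add, tz_smul]
  congr 1
  obtain ⟨i, j⟩ := c
  fin_cases i <;> fin_cases j <;> simp [adj2, tz_neg]

lemma star_x (F : Fin 2 → Fin 2 → Matrix ι ι ℂ) (x : ℂ) (t₁ t₂ : (ι × ι → ℂ) → ℂ)
    (h1 : ∀ Z, t₁ Z + t₂ Z = tz (F 0 0) Z + tz (F 1 1) Z)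
    (h2 : ∀ Z, t₁ Z * t₂ Z = tz (F 0 0) Z * tz (F 1 1) Z - tz (F 0 1) Z * tz (F 1 0) Z) :
    Integrable (fun u : Fin 2 → ℂ => (x • Au F u + Au (adj2 F) u).det * wt u) ∧
    Integrable (fun Z : ι × ι → ℂ => (QQ (t₁ Z) (t₂ Z) (Fintype.card ι)).eval x * dz Z * wt Z) ∧
    (Real.pi : ℂ) ^ Fintype.card (ι × ι) *
      ∫ u : Fin 2 → ℂ, (x • Au F u + Au (adj2 F) u).det * wt u =
    (Real.pi : ℂ) ^ 2 *
      ∫ Z : ι × ι → ℂ, (QQ (t₁ Z) (t₂ Z) (Fintype.card ι)).eval x * dz Z * wt Z := by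
  have hN : ((Fintype.card ι).factorial : ℂ) ≠ 0 := by
    exact_mod_cast (Fintype.card ι).factorial_ne_zero
  have hpi : (Real.pi : ℂ) ≠ 0 := by exact_mod_cast Real.pi_ne_zero
  have hA := avg_det (Gx F x)
  simp only [sum_Gx] at hA
  -- the numerical identity at each `Z`
  have hnum : ∀ Z : ι × ι → ℂ, ∑ f : ι → Fin 2 × Fin 2, gam f * ∏ s, tz (Gx F x (f s)) Z =
      ((Fintype.card ι).factorial : ℂ) * ((Real.pi : ℂ) ^ 2 *
        (QQ (t₁ Z) (t₂ Z) (Fintype.card ι)).eval x) := by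
    intro Z
    rw [← avg_num (fun c => tz (Gx F x c) Z), QQ_eval]
    refine avg_num_val _ _ _ ?_ ?_ _
    · simp only [tz_Gx, adj2, Matrix.cons_val_zero, Matrix.cons_val_one]
      linear_combination (x + 1) * h1 Z
    · simp only [tz_Gx, adj2, Matrix.cons_val_zero, Matrix.cons_val_one]
      linear_combination (x ^ 2 + 1 - 2 * x) * h2 Z + x * (t₁ Z + t₂ Z + tz (F 0 0) Z +
        tz (F 1 1) Z) * h1 Z
  have hint : ∀ f : ι → Fin 2 × Fin 2, Integrable (fun Z : ι × ι → ℂ =>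
      gam f * ((∏ s, tz (Gx F x (f s)) Z) * dz Z * wt Z)) :=
    fun f => ((mdg_int fun s => Gx F x (f s)).1).const_mul _
  have hfun : ∀ Z : ι × ι → ℂ, (QQ (t₁ Z) (t₂ Z) (Fintype.card ι)).eval x * dz Z * wt Z =
      (((Fintype.card ι).factorial : ℂ) * (Real.pi : ℂ) ^ 2)⁻¹ *
        ∑ f : ι → Fin 2 × Fin 2, gam f * ((∏ s, tz (Gx F x (f s)) Z) * dz Z * wt Z) := by
    intro Z
    have e : ∑ f : ι → Fin 2 × Fin 2, gam f * ((∏ s, tz (Gx F x (f s)) Z) * dz Z * wt Z) =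
        (∑ f : ι → Fin 2 × Fin 2, gam f * ∏ s, tz (Gx F x (f s)) Z) * (dz Z * wt Z) := by
      rw [Finset.sum_mul]
      refine Finset.sum_congr rfl fun f _ => ?_
      ring
    rw [e, hnum Z]
    field_simp
  refine ⟨hA.1, ?_, ?_⟩
  · simp only [hfun]
    exact (integrable_finsetSum _ fun f _ => hint f).const_mul _
  · simp only [hfun]
    rw [integral_const_mul, integral_finsetSum _ fun f _ => hint f]
    have e2 : ∑ f : ι → Fin 2 × Fin 2, ∫ Z : ι × ι → ℂ,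
        gam f * ((∏ s, tz (Gx F x (f s)) Z) * dz Z * wt Z) =
        (Real.pi : ℂ) ^ Fintype.card (ι × ι) *
          (((Fintype.card ι).factorial : ℂ) *
            ∫ u : Fin 2 → ℂ, (x • Au F u + Au (adj2 F) u).det * wt u) := by
      rw [hA.2, Finset.mul_sum]
      refine Finset.sum_congr rfl fun f _ => ?_
      rw [integral_const_mul, (mdg_int fun s => Gx F x (f s)).2]
      ring
    rw [e2]
    field_simp

end Pool.Agent.H94.EB
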