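import Mathlib
import Pool.Agent.H94.EB.Star

set_option autoImplicit false
open scoped ComplexOrder
open Matrix Equiv Finset MeasureTheory

namespace Pool.Agent.H94.EB

open Pool.Agent.H21.Wick Pool.Agent.H94.MD

lemma exists_roots (s p : ℂ) : ∃ t₁ t₂ : ℂ, t₁ + t₂ = s ∧ t₁ * t₂ = p := by
  obtain ⟨z, hz⟩ := IsAlgClosed.exists_pow_nat_eq (s ^ 2 - 4 * p) (n := 2) (by norm_num)
  refine ⟨(s + z) / 2, (s - z) / 2, by ring, ?_⟩
  linear_combination (-1 / 4 : ℂ) * hz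

variable {K : Type} [Fintype K] [DecidableEq K]

/-- the array made of copies of a rank two family -/
def BF (F : Fin 2 → Fin 2 → Matrix (Fin 2 × K) (Fin 2 × K) ℂ) (x y : Fin 2 × K) :
    Matrix (Fin 2 × K) (Fin 2 × K) ℂ := if x.2 = y.2 then F x.1 y.1 else 0

lemma det_tz_BF (F : Fin 2 → Fin 2 → Matrix (Fin 2 × K) (Fin 2 × K) ℂ)
    (Z : (Fin 2 × K) × (Fin 2 × K) → ℂ) :
    (Matrix.of fun x y => tz (BF F x y) Z).det =
      (tz (F 0 0) Z * tz (F 1 1) Z - tz (F 0 1) Z * tz (F 1 0) Z) ^ Fintype.card K := by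
  have h : (Matrix.of fun x y => tz (BF F x y) Z) =
      Matrix.blockDiagonal (fun _ : K => (Matrix.of fun i j => tz (F i j) Z)) := by
    ext ⟨i, s⟩ ⟨j, t⟩
    rw [Matrix.blockDiagonal_apply, Matrix.of_apply]
    by_cases hst : s = t
    · simp [BF, hst]
    · simp [BF, hst, tz]
  rw [h, Matrix.det_blockDiagonal, Finset.prod_const, Finset.card_univ, Matrix.det_fin_two]
  simp

theorem star2 (F : Fin 2 → Fin 2 → Matrix (Fin 2 × K) (Fin 2 × K) ℂ) {n : ℕ}
    (w x : Fin n → ℂ) (k : ℕ) (hk : Fintype.card K = k)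
    (hw : ∀ p : Polynomial ℂ, p.natDegree ≤ 2 * k →
      ∑ i, w i * p.eval (x i) = p.coeff k - p.coeff (k + 1)) :
    Integrable (fun u : Fin 2 → ℂ =>
      (∑ i, w i * (x i • Au F u + Au (adj2 F) u).det) * wt u) ∧
    ∫ u : Fin 2 → ℂ, (∑ i, w i * (x i • Au F u + Au (adj2 F) u).det) * wt u =
      (Real.pi : ℂ) ^ 2 * (((2 * k + 1).choose (k + 1) : ℂ) * Phi (BF F)) := by
  have hpi : (Real.pi : ℂ) ≠ 0 := by exact_mod_cast Real.pi_ne_zero
  have hcard : Fintype.card (Fin 2 × K) = 2 * k := by simp [hk]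
  choose t₁ t₂ h1 h2 using fun Z : (Fin 2 × K) × (Fin 2 × K) → ℂ =>
    exists_roots (tz (F 0 0) Z + tz (F 1 1) Z)
      (tz (F 0 0) Z * tz (F 1 1) Z - tz (F 0 1) Z * tz (F 1 0) Z)
  have hs := fun i => star_x F (x i) t₁ t₂ h1 h2
  have hexp : ∀ u : Fin 2 → ℂ,
      (∑ i, w i * (x i • Au F u + Au (adj2 F) u).det) * wt u =
      ∑ i, w i * ((x i • Au F u + Au (adj2 F) u).det * wt u) := by
    intro u
    rw [Finset.sum_mul]
    refine Finset.sum_congr rfl fun i _ => ?_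
    ring
  refine ⟨?_, ?_⟩
  · simp only [hexp]
    exact integrable_finsetSum _ fun i _ => (hs i).1.const_mul _
  · apply mul_left_cancel₀ (pow_ne_zero (Fintype.card ((Fin 2 × K) × (Fin 2 × K))) hpi)
    simp only [hexp]
    rw [integral_finsetSum _ fun i _ => (hs i).1.const_mul _, Finset.mul_sum]
    have e1 : ∀ i, (Real.pi : ℂ) ^ Fintype.card ((Fin 2 × K) × (Fin 2 × K)) *
        ∫ u : Fin 2 → ℂ, w i * ((x i • Au F u + Au (adj2 F) u).det * wt u) =
        (Real.pi : ℂ) ^ 2 * ∫ Z : (Fin 2 × K) × (Fin 2 × K) → ℂ, w i *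
          ((QQ (t₁ Z) (t₂ Z) (Fintype.card (Fin 2 × K))).eval (x i) * dz Z * wt Z) := by
      intro i
      rw [integral_const_mul, integral_const_mul]
      have := (hs i).2.2
      linear_combination w i * this
    rw [Finset.sum_congr rfl fun i _ => e1 i, ← Finset.mul_sum,
      ← integral_finsetSum _ fun i _ => (hs i).2.1.const_mul _]
    have e2 : ∀ Z : (Fin 2 × K) × (Fin 2 × K) → ℂ, ∑ i, w i *
          ((QQ (t₁ Z) (t₂ Z) (Fintype.card (Fin 2 × K))).eval (x i) * dz Z * wt Z) =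
          ((2 * k + 1).choose (k + 1) : ℂ) *
          ((Matrix.of fun x y => tz (BF F x y) Z).det * dz Z * wt Z) := by
      intro Z
      rw [det_tz_BF, hk, ← h2 Z, hcard]
      have e3 := hw (QQ (t₁ Z) (t₂ Z) (2 * k)) (QQ_natDegree _ _ _)
      rw [coef_eq] at e3
      have e4 : ∑ i, w i * ((QQ (t₁ Z) (t₂ Z) (2 * k)).eval (x i) * dz Z * wt Z) =
          (∑ i, w i * (QQ (t₁ Z) (t₂ Z) (2 * k)).eval (x i)) * (dz Z * wt Z) := by
        rw [Finset.sum_mul]
        refine Finset.sum_congr rfl fun i _ => ?_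
        ring
      rw [e4, e3]
      ring
    simp only [e2]
    rw [integral_const_mul, (Phi_int (BF F)).2]
    ring

end Pool.Agent.H94.EB
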