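import Mathlib
import Pool.Agent.H94.EB.Star2
import Pool.Agent.H94.EB.Scale2
import Pool.Agent.H94.EB.Darroch

set_option autoImplicit false
open scoped ComplexOrder
open Matrix Equiv Finset MeasureTheory

namespace Pool.Agent.H94.EB

open Pool.Agent.H21.Wick Pool.Agent.H94.MD

section pointwise

variable {κ : Type} [Fintype κ] [DecidableEq κ]

/-- The determinant of a pencil of a Hermitian matrix and its complement. -/
lemma det_pencil {A : Matrix κ κ ℂ} (hA : A.IsHermitian) (x ρ : ℂ) :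
    (x • A + (ρ • (1 : Matrix κ κ ℂ) - A)).det =
      ∏ i, (x * (hA.eigenvalues i : ℂ) + (ρ - (hA.eigenvalues i : ℂ))) := by
  have h := hA.spectral_theorem
  rw [Unitary.conjStarAlgAut_apply] at h
  set W : Matrix κ κ ℂ := (hA.eigenvectorUnitary : Matrix κ κ ℂ) with hW
  have hWW : W * star W = 1 := Unitary.mul_star_self_of_mem hA.eigenvectorUnitary.2
  have e1 : x • A + (ρ • (1 : Matrix κ κ ℂ) - A) =
      W * diagonal (fun i => x * (hA.eigenvalues i : ℂ) + (ρ - (hA.eigenvalues i : ℂ))) *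
        star W := by
    have e2 : diagonal (fun i => x * (hA.eigenvalues i : ℂ) + (ρ - (hA.eigenvalues i : ℂ))) =
        x • diagonal (RCLike.ofReal ∘ hA.eigenvalues) + (ρ • (1 : Matrix κ κ ℂ) -
          diagonal (RCLike.ofReal ∘ hA.eigenvalues)) := by
      ext i j
      by_cases hij : i = j
      · subst hij
        simp [Matrix.one_apply]
      · simp [hij, Matrix.one_apply]
    rw [e2, Matrix.mul_add, Matrix.mul_sub, Matrix.add_mul, Matrix.sub_mul, Matrix.mul_smul,
      Matrix.smul_mul, Matrix.mul_smul, Matrix.smul_mul, Matrix.mul_one, hWW]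
    rw [← h]
  rw [e1, Matrix.det_mul, Matrix.det_mul, Matrix.det_diagonal]
  have e3 : W.det * (star W).det = 1 := by
    rw [← Matrix.det_mul, hWW, Matrix.det_one]
  calc _ = (W.det * (star W).det) * ∏ i, (x * (hA.eigenvalues i : ℂ) +
      (ρ - (hA.eigenvalues i : ℂ))) := by ring
    _ = _ := by rw [e3, one_mul]

lemma PP_natDegree (p : κ → ℝ) : (PP p).natDegree ≤ Fintype.card κ := by
  unfold PP
  refine (Polynomial.natDegree_prod_le _ _).trans ?_
  rw [← Finset.card_univ, Finset.card_eq_sum_ones]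
  exact Finset.sum_le_sum fun i _ => Polynomial.natDegree_linear_le

lemma pencil_pos {A : Matrix κ κ ℂ} (ρ : ℝ) (hρ : 0 < ρ) (hA : A.PosSemidef)
    (hA' : ((ρ : ℂ) • (1 : Matrix κ κ ℂ) - A).PosSemidef) (k : ℕ)
    (hcard : Fintype.card κ = 2 * k) (htr : A.trace = (k : ℂ) * ρ) {n : ℕ} (w x : Fin n → ℂ)
    (hw : ∀ p : Polynomial ℂ, p.natDegree ≤ 2 * k →
      ∑ i, w i * p.eval (x i) = p.coeff k - p.coeff (k + 1)) :
    0 < ∑ i, w i * (x i • A + ((ρ : ℂ) • (1 : Matrix κ κ ℂ) - A)).det := by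
  have hH := hA.isHermitian
  set lam := hH.eigenvalues with hlam
  have hl0 : ∀ i, 0 ≤ lam i := fun i => hA.eigenvalues_nonneg i
  have hl1 : ∀ i, lam i ≤ ρ := by
    intro i
    -- test the complement on the eigenvector
    set v := (hH.eigenvectorBasis i).ofLp with hv
    have hv1 : A *ᵥ v = (lam i : ℂ) • v := hH.mulVec_eigenvectorBasis i
    have hvv : star v ⬝ᵥ v = 1 := by
      have h1 := hH.eigenvectorBasis.orthonormal.1 i
      have h2 : (inner ℂ (hH.eigenvectorBasis i) (hH.eigenvectorBasis i) : ℂ) = 1 := by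
        rw [inner_self_eq_norm_sq_to_K, h1]; simp
      rw [EuclideanSpace.inner_eq_star_dotProduct] at h2
      rw [dotProduct_comm]
      exact h2
    have h3 := hA'.dotProduct_mulVec_nonneg v
    rw [Matrix.sub_mulVec, Matrix.smul_mulVec, Matrix.one_mulVec, hv1, dotProduct_sub,
      dotProduct_smul, dotProduct_smul, hvv, smul_eq_mul, smul_eq_mul, mul_one, mul_one] at h3
    have h4 : (0 : ℂ) ≤ ((ρ - lam i : ℝ) : ℂ) := by
      push_cast
      exact h3
    have h5 : (0 : ℝ) ≤ ρ - lam i := by exact_mod_cast h4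
    linarith
  let p : κ → ℝ := fun i => lam i / ρ
  have hp : ∀ i, 0 ≤ p i ∧ p i ≤ 1 := fun i =>
    ⟨div_nonneg (hl0 i) hρ.le, (div_le_one hρ).mpr (hl1 i)⟩
  have hps : ∑ i, p i = k := by
    have h1 : ∑ i, (lam i : ℂ) = (k : ℂ) * ρ := by
      rw [← htr]
      exact hH.trace_eq_sum_eigenvalues.symm
    have h2 : ∑ i, lam i = k * ρ := by exact_mod_cast h1
    simp only [p]
    rw [← Finset.sum_div, h2]
    field_simp
  have hpos := darroch k p hp hps
  have hval : ∀ x : ℂ, (x • A + ((ρ : ℂ) • (1 : Matrix κ κ ℂ) - A)).det =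
      (ρ : ℂ) ^ (2 * k) * ((PP p).map Complex.ofRealHom).eval x := by
    intro x
    rw [det_pencil hH, ← hcard, ← Finset.card_univ, ← Finset.prod_const]
    unfold PP
    rw [Polynomial.map_prod, Polynomial.eval_prod, ← Finset.prod_mul_distrib]
    refine Finset.prod_congr rfl fun i _ => ?_
    have h1 : (lam i : ℂ) = (ρ : ℂ) * (p i : ℂ) := by
      simp only [p]
      push_cast
      field_simp
    rw [← hlam, h1]
    simp
    ring
  have hdeg : ((PP p).map Complex.ofRealHom).natDegree ≤ 2 * k := by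
    rw [← hcard]
    exact Polynomial.natDegree_map_le.trans (PP_natDegree p)
  have h1 := hw _ hdeg
  have h2 : ∑ i, w i * (x i • A + ((ρ : ℂ) • (1 : Matrix κ κ ℂ) - A)).det =
      (ρ : ℂ) ^ (2 * k) * ((ff k p : ℝ) : ℂ) := by
    have h3 : ((ff k p : ℝ) : ℂ) = ((PP p).map Complex.ofRealHom).coeff k -
        ((PP p).map Complex.ofRealHom).coeff (k + 1) := by
      rw [Polynomial.coeff_map, Polynomial.coeff_map, ff]
      simp
    rw [h3, ← h1, Finset.mul_sum]
    refine Finset.sum_congr rfl fun i _ => ?_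
    rw [hval]
    ring
  rw [h2]
  have h4 : 0 < ρ ^ (2 * k) * ff k p := mul_pos (pow_pos hρ _) hpos
  exact_mod_cast h4

end pointwise

end Pool.Agent.H94.EB
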