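import Mathlib
import Pool.Agent.H94.EB.Pos
import Pool.Agent.H94.MD.Blocks

set_option autoImplicit false
open scoped ComplexOrder
open Matrix Equiv Finset MeasureTheory

namespace Pool.Agent.H94.EB

open Pool.Agent.H21.Wick Pool.Agent.H94.MD

variable {K : Type} [Fintype K] [DecidableEq K]

lemma Au_adj {κ : Type} [Fintype κ] [DecidableEq κ] (F : Fin 2 → Fin 2 → Matrix κ κ ℂ)
    (hS : F 0 0 + F 1 1 = 1) (u : Fin 2 → ℂ) :
    Au (adj2 F) u = (((Complex.normSq (u 0) + Complex.normSq (u 1) : ℝ) : ℂ)) •
      (1 : Matrix κ κ ℂ) - Au F u := by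
  rw [← hS]
  have e1 : ∀ z : ℂ, (Complex.normSq z : ℂ) = z * star z := by
    intro z
    rw [Complex.star_def, Complex.mul_conj]
  simp only [Au, adj2, Fin.sum_univ_two, Matrix.cons_val_zero, Matrix.cons_val_one]
  push_cast
  rw [e1, e1]
  simp only [smul_add, smul_neg, add_smul]
  abel

lemma Au_adj' {κ : Type} [Fintype κ] [DecidableEq κ] (F : Fin 2 → Fin 2 → Matrix κ κ ℂ)
    (u : Fin 2 → ℂ) : Au (adj2 F) u = Au F ![star (u 1), -star (u 0)] := by
  simp only [Au, adj2, Fin.sum_univ_two, Matrix.cons_val_zero, Matrix.cons_val_one, star_neg,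
    star_star, smul_neg]
  have e : ∀ a b c d : Matrix κ κ ℂ, (a + b) + (c + d) = (d + b) + (c + a) := by
    intros; abel
  rw [e]
  congr 1
  · congr 1
    · congr 1; ring
    · rw [← neg_smul]; congr 1; ring
  · congr 1
    · rw [← neg_smul]; congr 1; ring
    · congr 1; ring

lemma cont_Au {κ : Type} [Fintype κ] [DecidableEq κ] (F : Fin 2 → Fin 2 → Matrix κ κ ℂ) :
    Continuous fun u : Fin 2 → ℂ => Au F u := by
  unfold Au
  refine continuous_finsetSum _ fun k _ => continuous_finsetSum _ fun l _ => ?_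
  have h : Continuous fun u : Fin 2 → ℂ => (u k * star (u l)) := by fun_prop
  exact h.smul (continuous_const (y := F k l))

theorem scaled_pos (hK : 0 < Fintype.card K)
    (F : Fin 2 → Fin 2 → Matrix (Fin 2 × K) (Fin 2 × K) ℂ)
    (hF : PosF F) (hS : F 0 0 + F 1 1 = 1)
    (htr : ∀ i j, (F i j).trace = if i = j then (Fintype.card K : ℂ) else 0) :
    0 < Phi (BF F) := by
  set k := Fintype.card K with hk
  have hcard : Fintype.card (Fin 2 × K) = 2 * k := by simp [hk]
  obtain ⟨w, x, hw⟩ := exists_weights (2 * k) k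
  have hstar := star2 F w x k hk.symm hw
  let D : (Fin 2 → ℂ) → ℂ := fun u => ∑ i, w i * (x i • Au F u + Au (adj2 F) u).det
  have hpos : ∀ u, u ≠ 0 → 0 < D u := by
    intro u hu
    have h1 : (Au F u).PosDef := hF u hu
    have h2 : (Au (adj2 F) u).PosDef := by
      rw [Au_adj']
      refine hF _ ?_
      intro h0
      apply hu
      funext v
      have a0 := congrFun h0 0
      have a1 := congrFun h0 1
      simp only [Matrix.cons_val_zero, Matrix.cons_val_one, Pi.zero_apply, star_eq_zero,
        neg_eq_zero] at a0 a1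
      fin_cases v
      · exact a1
      · exact a0
    have hρ : 0 < Complex.normSq (u 0) + Complex.normSq (u 1) := by
      by_contra hcon
      have n0 := Complex.normSq_nonneg (u 0)
      have n1 := Complex.normSq_nonneg (u 1)
      have m0 : Complex.normSq (u 0) = 0 := by linarith
      have m1 : Complex.normSq (u 1) = 0 := by linarith
      apply hu
      funext v
      fin_cases v
      · exact Complex.normSq_eq_zero.mp m0
      · exact Complex.normSq_eq_zero.mp m1
    have h3 := Au_adj F hS u
    rw [h3] at h2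
    have ht : (Au F u).trace = (k : ℂ) *
        ((Complex.normSq (u 0) + Complex.normSq (u 1) : ℝ) : ℂ) := by
      have e1 : ∀ z : ℂ, (Complex.normSq z : ℂ) = z * star z := by
        intro z
        rw [Complex.star_def, Complex.mul_conj]
      simp only [Au, Fin.sum_univ_two, Matrix.trace_add, Matrix.trace_smul, htr]
      push_cast
      rw [e1, e1]
      simp
      ring
    have h4 := pencil_pos _ hρ h1.posSemidef h2.posSemidef k hcard ht w x hw
    simp only [D]
    rw [h3]
    exact h4
  have hnn : ∀ u, 0 ≤ D u := by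
    intro u
    by_cases hu : u = 0
    · have h1 : Au F u = 0 := by simp [Au, hu]
      have h2 : Au (adj2 F) u = 0 := by simp [Au, hu]
      haveI : Nonempty (Fin 2 × K) := by
        rw [← Fintype.card_pos_iff, hcard]; omega
      simp only [D]
      rw [h1, h2]
      simp
    · exact (hpos u hu).le
  let f : (Fin 2 → ℂ) → ℝ := fun u => (D u).re * ∏ v, Real.exp (-‖u v‖ ^ 2)
  have hre : ∀ u, D u = ((D u).re : ℂ) := by
    intro u
    have := Complex.le_def.mp (hnn u)
    apply Complex.ext
    · simp
    · simpa using this.2.symm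
  have hf : ∀ u, D u * wt u = ((f u : ℝ) : ℂ) := by
    intro u
    simp only [f, wt]
    push_cast
    rw [← hre u]
  have hf0 : ∀ u, 0 ≤ f u := by
    intro u
    have := (Complex.le_def.mp (hnn u)).1
    exact mul_nonneg this (Finset.prod_nonneg fun v _ => (Real.exp_pos _).le)
  have hDc : Continuous D := by
    refine continuous_finsetSum _ fun i _ => continuous_const.mul ?_
    refine Continuous.matrix_det ?_
    exact ((cont_Au F).const_smul (x i)).add (cont_Au (adj2 F))
  have hfc : Continuous f := by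
    have h2 : Continuous fun u => (D u).re := Complex.continuous_re.comp hDc
    refine h2.mul ?_
    fun_prop
  have hfi : Integrable f := by
    have h1 : Integrable (fun u => D u * wt u) := hstar.1
    simp only [hf] at h1
    simpa using h1.re
  have hint : ∫ u : Fin 2 → ℂ, D u * wt u =
      (Real.pi : ℂ) ^ 2 * (((2 * k + 1).choose (k + 1) : ℂ) * Phi (BF F)) := hstar.2
  simp only [hf] at hint
  rw [integral_complex_ofReal] at hint
  have h3 : 0 < ∫ u, f u := by
    rw [integral_pos_iff_support_of_nonneg hf0 hfi]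
    have hopen : IsOpen (Function.support f) := hfc.isOpen_support
    refine hopen.measure_pos _ ⟨fun _ => 1, ?_⟩
    rw [Function.mem_support]
    have h4 := (Complex.lt_def.mp (hpos (fun _ => 1) (by
      intro h0
      have := congrFun h0 0
      simp at this))).1
    have h5 : 0 < f (fun _ => 1) := mul_pos h4 (Finset.prod_pos fun v _ => Real.exp_pos _)
    exact h5.ne'
  have h6 : (0 : ℂ) < ((∫ u, f u : ℝ) : ℂ) := by exact_mod_cast h3
  rw [hint, ← mul_assoc] at h6
  have hc : (0 : ℂ) < (Real.pi : ℂ) ^ 2 * ((2 * k + 1).choose (k + 1) : ℂ) := by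
    have h7 : (0 : ℝ) < Real.pi ^ 2 * ((2 * k + 1).choose (k + 1) : ℝ) := by
      have : 0 < (2 * k + 1).choose (k + 1) := Nat.choose_pos (by omega)
      have h8 : (0 : ℝ) < ((2 * k + 1).choose (k + 1) : ℝ) := by exact_mod_cast this
      positivity
    exact_mod_cast h7
  exact (mul_pos_iff_of_pos_left hc).mp h6

/-- the block diagonal extension of a `2 x 2` matrix -/
def dg (g : Matrix (Fin 2) (Fin 2) ℂ) : Matrix (Fin 2 × K) (Fin 2 × K) ℂ :=
  Matrix.blockDiagonal fun _ : K => g

lemma acg_dg (g : Matrix (Fin 2) (Fin 2) ℂ)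
    (F : Fin 2 → Fin 2 → Matrix (Fin 2 × K) (Fin 2 × K) ℂ) :
    acg (dg g) (BF F) = BF (acr g F) := by
  funext x y
  obtain ⟨i, s⟩ := x
  obtain ⟨j, t⟩ := y
  have h1 : acg (dg g) (BF F) (i, s) (j, t) =
      ∑ a : Fin 2, ∑ b : Fin 2, (g i a * star (g j b)) • BF F (a, s) (b, t) := by
    simp only [acg]
    rw [Fintype.sum_prod_type]
    refine Finset.sum_congr rfl fun a _ => ?_
    rw [Finset.sum_eq_single s]
    · rw [Fintype.sum_prod_type]
      refine Finset.sum_congr rfl fun b _ => ?_
      rw [Finset.sum_eq_single t]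
      · simp [dg, Matrix.blockDiagonal_apply]
      · intro t' _ ht'
        simp [dg, Matrix.blockDiagonal_apply, Ne.symm ht']
      · simp
    · intro s' _ hs'
      refine Finset.sum_eq_zero fun y _ => ?_
      simp [dg, Matrix.blockDiagonal_apply, Ne.symm hs']
    · simp
  rw [h1]
  by_cases hst : s = t
  · simp [BF, hst, acr]
  · simp [BF, hst]

theorem equal_pos (F : Fin 2 → Fin 2 → Matrix (Fin 2 × K) (Fin 2 × K) ℂ) (hF : PosF (BF F)) :
    0 < Phi (BF F) := by
  rcases Nat.eq_zero_or_pos (Fintype.card K) with h0 | hK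
  · refine Phi_pos_le3 ?_ _ hF
    simp [h0]
  obtain ⟨s₀⟩ : Nonempty K := Fintype.card_pos_iff.mp hK
  have hF2 : PosF F := by
    have h1 := posF_comp hF (fun i : Fin 2 => (i, s₀)) (fun a b h => (Prod.mk.inj h).1)
    have h2 : (fun i j : Fin 2 => BF F (i, s₀) (j, s₀)) = F := by
      funext i j
      simp [BF]
    rw [h2] at h1
    exact h1
  obtain ⟨g, h, hg, hh, h1, h2⟩ := exists_scalingr (n := 2) (by norm_num) hF2
    (Fintype.card K) hK (by simp)
  have hpos := scaled_pos hK (fun i j => h * acr g F i j * hᴴ) (conj_posFr hh (acr_posF hg hF2))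
    (by rw [← h1, Fin.sum_univ_two]) h2
  have e1 : BF (fun i j => h * acr g F i j * hᴴ) = fun x y => h * acg (dg g) (BF F) x y * hᴴ := by
    rw [acg_dg]
    funext x y
    unfold BF
    split_ifs <;> simp
  rw [e1, Phi_conj, Phi_acg, ← mul_assoc] at hpos
  have hdg : (dg (K := K) g).det ≠ 0 := by
    unfold dg
    rw [Matrix.det_blockDiagonal, Finset.prod_const]
    exact pow_ne_zero _ hg
  have hc : (0 : ℂ) < (h.det * star h.det) * ((dg (K := K) g).det * star (dg (K := K) g).det) := by
    have a1 : ∀ z : ℂ, z ≠ 0 → (0 : ℂ) < z * star z := by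
      intro z hz
      rw [Complex.star_def, Complex.mul_conj]
      exact_mod_cast Complex.normSq_pos.mpr hz
    exact mul_pos (a1 _ hh) (a1 _ hdg)
  exact (mul_pos_iff_of_pos_left hc).mp hpos

end Pool.Agent.H94.EB
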