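import Mathlib
import Pool.Agent.H94.EB.Pos2

set_option autoImplicit false
open scoped ComplexOrder
open Matrix Equiv Finset

namespace Pool.Agent.H94.EB

open Pool.Agent.H94.MD

/-- the wedge product of two (1,1)-forms -/
def wd {κ : Type} (P Q : Matrix κ κ ℂ) (a b c d : κ) : ℂ :=
  P a c * Q b d - P b c * Q a d - P a d * Q b c + P b d * Q a c

/-- the second Chern form of a rank two family -/
def c2 {κ : Type} (F : Fin 2 → Fin 2 → Matrix κ κ ℂ) (a b c d : κ) : ℂ :=
  wd (F 0 0) (F 1 1) a b c d - wd (F 0 1) (F 1 0) a b c d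

variable {K : Type} [Fintype K] [DecidableEq K]

/-- the alternating sum of a product of tensors -/
noncomputable def PhiT (T : K → Fin 2 × K → Fin 2 × K → Fin 2 × K → Fin 2 × K → ℂ) : ℂ :=
  ∑ α : Perm (Fin 2 × K), ∑ ρ : Perm (Fin 2 × K), sg α * sg ρ *
    ∏ s, T s (α (0, s)) (α (1, s)) (ρ (0, s)) (ρ (1, s))

/-- antisymmetrisation -/
def asym {κ : Type} (X : κ → κ → κ → κ → ℂ) (a b c d : κ) : ℂ :=
  X a b c d - X b a c d - X a b d c + X b a d c

lemma PhiT_update (T : K → Fin 2 × K → Fin 2 × K → Fin 2 × K → Fin 2 × K → ℂ) (s : K)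
    (X : Fin 2 × K → Fin 2 × K → Fin 2 × K → Fin 2 × K → ℂ) :
    PhiT (Function.update T s X) = ∑ α : Perm (Fin 2 × K), ∑ ρ : Perm (Fin 2 × K),
      sg α * sg ρ * (X (α (0, s)) (α (1, s)) (ρ (0, s)) (ρ (1, s)) *
        ∏ t ∈ univ.erase s, T t (α (0, t)) (α (1, t)) (ρ (0, t)) (ρ (1, t))) := by
  unfold PhiT
  refine Finset.sum_congr rfl fun α _ => Finset.sum_congr rfl fun ρ _ => ?_
  congr 1
  rw [← Finset.mul_prod_erase univ _ (Finset.mem_univ s), Function.update_self]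
  congr 1
  refine Finset.prod_congr rfl fun t ht => ?_
  rw [Function.update_of_ne (Finset.mem_erase.mp ht).1]

lemma sg_swap {ι : Type} [Fintype ι] [DecidableEq ι] {a b : ι} (h : a ≠ b) :
    sg (Equiv.swap a b) = -1 := by
  simp [sg, Perm.sign_swap h]

lemma PhiT_asym1 (T : K → Fin 2 × K → Fin 2 × K → Fin 2 × K → Fin 2 × K → ℂ) (s : K)
    (X : Fin 2 × K → Fin 2 × K → Fin 2 × K → Fin 2 × K → ℂ) :
    PhiT (Function.update T s (asym X)) = 4 * PhiT (Function.update T s X) := by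
  rw [PhiT_update, PhiT_update]
  set w : Perm (Fin 2 × K) := Equiv.swap ((0 : Fin 2), s) ((1 : Fin 2), s) with hw
  have hne : ((0 : Fin 2), s) ≠ ((1 : Fin 2), s) := by
    intro h
    exact absurd (Prod.mk.inj h).1 (by decide)
  have hsg : ∀ α : Perm (Fin 2 × K), sg (α * w) = - sg α := by
    intro α
    rw [sg_mul, hw, sg_swap hne, mul_neg_one]
  have h0 : ∀ α : Perm (Fin 2 × K), (α * w) (0, s) = α (1, s) := by
    intro α; simp [hw]
  have h1 : ∀ α : Perm (Fin 2 × K), (α * w) (1, s) = α (0, s) := by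
    intro α; simp [hw]
  have h2 : ∀ (α : Perm (Fin 2 × K)) (i : Fin 2) (t : K), t ≠ s → (α * w) (i, t) = α (i, t) := by
    intro α i t ht
    rw [Perm.mul_apply, hw, Equiv.swap_apply_of_ne_of_ne]
    · intro h; exact ht (Prod.mk.inj h).2
    · intro h; exact ht (Prod.mk.inj h).2
  set R : Perm (Fin 2 × K) → Perm (Fin 2 × K) → ℂ := fun α ρ =>
    ∏ t ∈ univ.erase s, T t (α (0, t)) (α (1, t)) (ρ (0, t)) (ρ (1, t)) with hR
  have hR1 : ∀ α ρ, R (α * w) ρ = R α ρ := by
    intro α ρ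
    refine Finset.prod_congr rfl fun t ht => ?_
    have ht' := (Finset.mem_erase.mp ht).1
    rw [h2 _ _ _ ht', h2 _ _ _ ht']
  have hR2 : ∀ α ρ, R α (ρ * w) = R α ρ := by
    intro α ρ
    refine Finset.prod_congr rfl fun t ht => ?_
    have ht' := (Finset.mem_erase.mp ht).1
    rw [h2 _ _ _ ht', h2 _ _ _ ht']
  have e1 : ∑ α : Perm (Fin 2 × K), ∑ ρ : Perm (Fin 2 × K),
      sg α * sg ρ * (X (α (1, s)) (α (0, s)) (ρ (0, s)) (ρ (1, s)) * R α ρ) =
      - ∑ α : Perm (Fin 2 × K), ∑ ρ : Perm (Fin 2 × K),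
      sg α * sg ρ * (X (α (0, s)) (α (1, s)) (ρ (0, s)) (ρ (1, s)) * R α ρ) := by
    rw [← Equiv.sum_comp (Equiv.mulRight w), ← Finset.sum_neg_distrib]
    refine Finset.sum_congr rfl fun α _ => ?_
    rw [← Finset.sum_neg_distrib]
    refine Finset.sum_congr rfl fun ρ _ => ?_
    rw [Equiv.coe_mulRight, hsg, h0, h1, hR1]
    ring
  have e2 : ∑ α : Perm (Fin 2 × K), ∑ ρ : Perm (Fin 2 × K),
      sg α * sg ρ * (X (α (0, s)) (α (1, s)) (ρ (1, s)) (ρ (0, s)) * R α ρ) =
      - ∑ α : Perm (Fin 2 × K), ∑ ρ : Perm (Fin 2 × K),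
      sg α * sg ρ * (X (α (0, s)) (α (1, s)) (ρ (0, s)) (ρ (1, s)) * R α ρ) := by
    rw [← Finset.sum_neg_distrib]
    refine Finset.sum_congr rfl fun α _ => ?_
    rw [← Equiv.sum_comp (Equiv.mulRight w), ← Finset.sum_neg_distrib]
    refine Finset.sum_congr rfl fun ρ _ => ?_
    rw [Equiv.coe_mulRight, hsg, h0, h1, hR2]
    ring
  have e3 : ∑ α : Perm (Fin 2 × K), ∑ ρ : Perm (Fin 2 × K),
      sg α * sg ρ * (X (α (1, s)) (α (0, s)) (ρ (1, s)) (ρ (0, s)) * R α ρ) =
      ∑ α : Perm (Fin 2 × K), ∑ ρ : Perm (Fin 2 × K),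
      sg α * sg ρ * (X (α (0, s)) (α (1, s)) (ρ (0, s)) (ρ (1, s)) * R α ρ) := by
    rw [← Equiv.sum_comp (Equiv.mulRight w)]
    refine Finset.sum_congr rfl fun α _ => ?_
    rw [← Equiv.sum_comp (Equiv.mulRight w)]
    refine Finset.sum_congr rfl fun ρ _ => ?_
    rw [Equiv.coe_mulRight, hsg, hsg, h0, h1, h0, h1, hR2, hR1]
    ring
  have e4 : ∀ α ρ : Perm (Fin 2 × K), sg α * sg ρ *
      (asym X (α (0, s)) (α (1, s)) (ρ (0, s)) (ρ (1, s)) * R α ρ) =
      sg α * sg ρ * (X (α (0, s)) (α (1, s)) (ρ (0, s)) (ρ (1, s)) * R α ρ) -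
      sg α * sg ρ * (X (α (1, s)) (α (0, s)) (ρ (0, s)) (ρ (1, s)) * R α ρ) -
      sg α * sg ρ * (X (α (0, s)) (α (1, s)) (ρ (1, s)) (ρ (0, s)) * R α ρ) +
      sg α * sg ρ * (X (α (1, s)) (α (0, s)) (ρ (1, s)) (ρ (0, s)) * R α ρ) := by
    intro α ρ
    unfold asym
    ring
  change ∑ α : Perm (Fin 2 × K), ∑ ρ : Perm (Fin 2 × K), sg α * sg ρ *
      (asym X (α (0, s)) (α (1, s)) (ρ (0, s)) (ρ (1, s)) * R α ρ) =
      4 * ∑ α : Perm (Fin 2 × K), ∑ ρ : Perm (Fin 2 × K), sg α * sg ρ *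
      (X (α (0, s)) (α (1, s)) (ρ (0, s)) (ρ (1, s)) * R α ρ)
  simp only [e4, Finset.sum_add_distrib, Finset.sum_sub_distrib]
  rw [e1, e2, e3]
  ring

lemma PhiT_asym (T : K → Fin 2 × K → Fin 2 × K → Fin 2 × K → Fin 2 × K → ℂ) :
    PhiT (fun s => asym (T s)) = 4 ^ Fintype.card K * PhiT T := by
  have key : ∀ S : Finset K, PhiT (fun s => if s ∈ S then asym (T s) else T s) =
      4 ^ S.card * PhiT T := by
    intro S
    induction S using Finset.induction_on with
    | empty => simp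
    | insert a S ha ih =>
      have h1 : (fun s => if s ∈ insert a S then asym (T s) else T s) =
          Function.update (fun s => if s ∈ S then asym (T s) else T s) a (asym (T a)) := by
        funext s
        by_cases h : s = a
        · subst h; simp
        · rw [Function.update_of_ne h]
          simp [h]
      have h2 : Function.update (fun s => if s ∈ S then asym (T s) else T s) a (T a) =
          fun s => if s ∈ S then asym (T s) else T s := by
        have h3 : (fun s => if s ∈ S then asym (T s) else T s) a = T a := by simp [ha]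
        rw [← h3]
        exact Function.update_eq_self a _
      rw [h1, PhiT_asym1, h2, ih, Finset.card_insert_of_notMem ha]
      ring
  have h := key univ
  simpa using h

lemma PhiT_sum {O : Type} [Fintype O] [DecidableEq O] (w : K → O → ℂ)
    (G : K → O → Fin 2 × K → Fin 2 × K → Fin 2 × K → Fin 2 × K → ℂ) :
    PhiT (fun s a b c d => ∑ o, w s o * G s o a b c d) =
      ∑ f : K → O, (∏ s, w s (f s)) * PhiT (fun s => G s (f s)) := by
  unfold PhiT
  simp only [Finset.mul_sum]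
  rw [Finset.sum_comm]
  conv_rhs => rw [Finset.sum_comm]
  rw [Finset.sum_comm]
  refine Finset.sum_congr rfl fun α _ => ?_
  conv_rhs => rw [Finset.sum_comm]
  refine Finset.sum_congr rfl fun ρ _ => ?_
  rw [Finset.prod_univ_sum, Fintype.piFinset_univ, Finset.mul_sum]
  refine Finset.sum_congr rfl fun f _ => ?_
  rw [Finset.prod_mul_distrib]
  ring

/-- the second Chern form is the antisymmetrised determinant -/
lemma c2_eq_asym {κ : Type} (F : Fin 2 → Fin 2 → Matrix κ κ ℂ) :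
    c2 F = asym (fun a b c d => F 0 0 a c * F 1 1 b d - F 0 1 a c * F 1 0 b d) := by
  funext a b c d
  unfold c2 wd asym
  ring

lemma Phi_blk (B : Fin 2 × K → Fin 2 × K → Matrix (Fin 2 × K) (Fin 2 × K) ℂ)
    (h0 : ∀ x y, x.2 ≠ y.2 → B x y = 0) :
    Phi B = PhiT (fun s a b c d => B (0, s) (0, s) a c * B (1, s) (1, s) b d -
      B (0, s) (1, s) a c * B (1, s) (0, s) b d) := by
  unfold Phi PhiT
  refine Finset.sum_congr rfl fun α _ => Finset.sum_congr rfl fun ρ _ => ?_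
  congr 1
  have h : (Matrix.of fun k j => B k j (α k) (ρ k)) =
      Matrix.blockDiagonal (fun s : K => (Matrix.of fun i j =>
        B (i, s) (j, s) (α (i, s)) (ρ (i, s)))) := by
    ext ⟨i, s⟩ ⟨j, t⟩
    rw [Matrix.blockDiagonal_apply, Matrix.of_apply]
    by_cases hst : s = t
    · subst hst; simp
    · rw [if_neg hst, h0 _ _ hst]; rfl
  rw [h, Matrix.det_blockDiagonal]
  refine Finset.prod_congr rfl fun s _ => ?_
  rw [Matrix.det_fin_two]
  rfl

/-- `Phi` of a sum of blocks of size two is a function of the second Chern forms. -/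
lemma Phi_c2 (B : Fin 2 × K → Fin 2 × K → Matrix (Fin 2 × K) (Fin 2 × K) ℂ)
    (h0 : ∀ x y, x.2 ≠ y.2 → B x y = 0) :
    4 ^ Fintype.card K * Phi B = PhiT (fun s => c2 (fun i j => B (i, s) (j, s))) := by
  rw [Phi_blk B h0, ← PhiT_asym]
  congr 1
  funext s
  rw [c2_eq_asym]

end Pool.Agent.H94.EB
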