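import Mathlib
import Pool.Agent.H94.EB.C2

set_option autoImplicit false
open scoped ComplexOrder
open Matrix Equiv Finset

namespace Pool.Agent.H94.EB

open Pool.Agent.H94.MD

section posf

variable {κ : Type} [Fintype κ] [DecidableEq κ] {K : Type} [Fintype K] [DecidableEq K]

/-- copies of a rank two family, with values in any matrix algebra -/
def BG (K : Type) [DecidableEq K] {κ : Type} (F : Fin 2 → Fin 2 → Matrix κ κ ℂ)
    (x y : Fin 2 × K) : Matrix κ κ ℂ := if x.2 = y.2 then F x.1 y.1 else 0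

lemma posF_BG {F : Fin 2 → Fin 2 → Matrix κ κ ℂ} (hF : PosF F) : PosF (BG K F) := by
  intro ξ hξ
  have h1 : ∑ i, ∑ j, (ξ i * star (ξ j)) • BG K F i j =
      ∑ s : K, ∑ i : Fin 2, ∑ j : Fin 2, (ξ (i, s) * star (ξ (j, s))) • F i j := by
    rw [Fintype.sum_prod_type_right]
    refine Finset.sum_congr rfl fun s _ => Finset.sum_congr rfl fun i _ => ?_
    rw [Fintype.sum_prod_type]
    refine Finset.sum_congr rfl fun j _ => ?_
    rw [Finset.sum_eq_single s]
    · simp [BG]
    · intro t _ ht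
      simp [BG, Ne.symm ht]
    · simp
  rw [h1]
  have h2 : ∀ s : K, (fun i => ξ (i, s)) ≠ 0 →
      (∑ i : Fin 2, ∑ j : Fin 2, (ξ (i, s) * star (ξ (j, s))) • F i j).PosDef :=
    fun s hs => hF _ hs
  have h3 : ∀ s : K, (∑ i : Fin 2, ∑ j : Fin 2,
      (ξ (i, s) * star (ξ (j, s))) • F i j).PosSemidef := by
    intro s
    by_cases hs : (fun i => ξ (i, s)) = 0
    · have h4 : ∀ i, ξ (i, s) = 0 := fun i => congrFun hs i
      simp only [h4]
      simp only [zero_mul, zero_smul, Finset.sum_const_zero]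
      exact PosSemidef.zero
    · exact (h2 s hs).posSemidef
  obtain ⟨s₀, hs₀⟩ : ∃ s, (fun i => ξ (i, s)) ≠ 0 := by
    by_contra hcon
    push Not at hcon
    apply hξ
    funext ⟨i, s⟩
    exact congrFun (hcon s) i
  rw [← Finset.add_sum_erase _ _ (Finset.mem_univ s₀)]
  exact (h2 s₀ hs₀).add_posSemidef (posSemidef_sum _ fun s _ => h3 s)

/-- a diagonal family -/
def DG {V : Type} [DecidableEq V] {κ : Type} (M : V → Matrix κ κ ℂ) (v v' : V) : Matrix κ κ ℂ :=
  if v = v' then M v else 0

lemma posF_DG {V : Type} [Fintype V] [DecidableEq V] {M : V → Matrix κ κ ℂ}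
    (hM : ∀ v, (M v).PosDef) : PosF (DG M) := by
  intro ξ hξ
  have h1 : ∑ i, ∑ j, (ξ i * star (ξ j)) • DG M i j =
      ∑ v, (ξ v * star (ξ v)) • M v := by
    refine Finset.sum_congr rfl fun v _ => ?_
    rw [Finset.sum_eq_single v]
    · simp [DG]
    · intro t _ ht
      simp [DG, Ne.symm ht]
    · simp
  rw [h1]
  have hn : ∀ z : ℂ, z * star z = ((Complex.normSq z : ℝ) : ℂ) := by
    intro z
    rw [Complex.star_def, Complex.mul_conj]
  obtain ⟨v₀, hv₀⟩ : ∃ v, ξ v ≠ 0 := by
    by_contra hcon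
    push Not at hcon
    exact hξ (funext hcon)
  have h2 : ∀ v, ((ξ v * star (ξ v)) • M v).PosSemidef := by
    intro v
    refine (hM v).posSemidef.smul ?_
    exact mul_star_self_nonneg _
  have h3 : ((ξ v₀ * star (ξ v₀)) • M v₀).PosDef := by
    refine (hM v₀).smul ?_
    rw [hn]
    exact_mod_cast Complex.normSq_pos.mpr hv₀
  rw [← Finset.add_sum_erase _ _ (Finset.mem_univ v₀)]
  exact h3.add_posSemidef (posSemidef_sum _ fun s _ => h2 s)

lemma isCP_DG {V : Type} [Fintype V] [DecidableEq V] {M : V → Matrix κ κ ℂ}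
    (hM : ∀ v, (M v).PosSemidef) : IsCP (DG M) := by
  choose R hR using fun v => exists_sqrtr (hM v)
  let e := Fintype.equivFin (V × κ)
  refine ⟨Fintype.card (V × κ), fun t v a => if v = (e.symm t).1 then R v a (e.symm t).2 else 0,
    ?_⟩
  intro k j a b
  rw [Equiv.sum_comp e.symm (fun q : V × κ => (if k = q.1 then R k a q.2 else 0) *
    star (if j = q.1 then R j b q.2 else 0)), Fintype.sum_prod_type, Finset.sum_eq_single k]
  · by_cases hkj : k = j
    · subst hkj
      simp only [DG, if_true]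
      conv_lhs => rw [hR k]
      rw [Matrix.mul_apply]
      rfl
    · simp [DG, hkj, Ne.symm hkj]
  · intro v _ hv
    refine Finset.sum_eq_zero fun c _ => ?_
    rw [if_neg (Ne.symm hv), zero_mul]
  · simp

end posf

section bs

variable {U V : Type} [Fintype U] [DecidableEq U] [Fintype V] [DecidableEq V]

lemma posF_bsum {B : U → U → Matrix (U ⊕ V) (U ⊕ V) ℂ} {C : V → V → Matrix (U ⊕ V) (U ⊕ V) ℂ}
    (hB : PosF B) (hC : PosF C) : PosF (bsum B C) := by
  intro ξ hξ
  have h1 : ∑ i, ∑ j, (ξ i * star (ξ j)) • bsum B C i j =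
      (∑ i, ∑ j, (ξ (Sum.inl i) * star (ξ (Sum.inl j))) • B i j) +
      (∑ i, ∑ j, (ξ (Sum.inr i) * star (ξ (Sum.inr j))) • C i j) := by
    rw [Fintype.sum_sum_type]
    congr 1
    · refine Finset.sum_congr rfl fun i _ => ?_
      rw [Fintype.sum_sum_type]
      simp [bsum]
    · refine Finset.sum_congr rfl fun i _ => ?_
      rw [Fintype.sum_sum_type]
      simp [bsum]
  rw [h1]
  by_cases hU : (fun i => ξ (Sum.inl i)) = 0
  · have hV : (fun i => ξ (Sum.inr i)) ≠ 0 := by
      intro hV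
      apply hξ
      funext z
      rcases z with i | i
      · exact congrFun hU i
      · exact congrFun hV i
    have h2 : ∀ i, ξ (Sum.inl i) = 0 := fun i => congrFun hU i
    have h3 : (∑ i, ∑ j, (ξ (Sum.inl i) * star (ξ (Sum.inl j))) • B i j) = 0 := by
      simp [h2]
    rw [h3, zero_add]
    exact hC _ hV
  · have hBU := hB _ hU
    by_cases hV : (fun i => ξ (Sum.inr i)) = 0
    · have h2 : ∀ i, ξ (Sum.inr i) = 0 := fun i => congrFun hV i
      have h3 : (∑ i, ∑ j, (ξ (Sum.inr i) * star (ξ (Sum.inr j))) • C i j) = 0 := by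
        simp [h2]
      rw [h3, add_zero]
      exact hBU
    · exact hBU.add_posSemidef (hC _ hV).posSemidef

lemma cont_PhiB {ι : Type} [Fintype ι] [DecidableEq ι] (B : ℝ → ι → ι → Matrix ι ι ℂ)
    (hB : ∀ x y, Continuous fun ε => B ε x y) : Continuous fun ε => Phi (B ε) := by
  unfold Phi
  refine continuous_finsetSum _ fun α _ => continuous_finsetSum _ fun ρ _ => ?_
  refine continuous_const.mul ?_
  refine Continuous.matrix_det ?_
  refine continuous_matrix fun k j => ?_
  exact (continuous_apply_apply (α k) (ρ k)).comp (hB k j)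

end bs

section mixed

variable {K : Type} [Fintype K] [DecidableEq K]

/-- mixture of copies of `F` and of diagonal blocks -/
def MX (S : K → Prop) [DecidablePred S] {κ : Type} (F : Fin 2 → Fin 2 → Matrix κ κ ℂ)
    (M : Fin 2 × K → Matrix κ κ ℂ) (x y : Fin 2 × K) : Matrix κ κ ℂ :=
  if x.2 = y.2 then (if S x.2 then F x.1 y.1 else (if x.1 = y.1 then M x else 0)) else 0

/-- the splitting of the set of blocks -/
def spl (S : K → Prop) [DecidablePred S] :
    (Fin 2 × {s // S s}) ⊕ (Fin 2 × {s // ¬ S s}) ≃ Fin 2 × K :=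
  (Equiv.prodSumDistrib _ _ _).symm.trans (Equiv.prodCongr (Equiv.refl _) (Equiv.sumCompl S))

lemma MX_pos (S : K → Prop) [DecidablePred S] {F : Fin 2 → Fin 2 →
    Matrix (Fin 2 × K) (Fin 2 × K) ℂ} (hF : PosF F) {M : Fin 2 × K → Matrix _ _ ℂ}
    (hM : ∀ v, (M v).PosDef) : 0 < Phi (MX S F M) := by
  rw [← Phi_reindex (spl S)]
  have e1 : (fun i j : (Fin 2 × {s // S s}) ⊕ (Fin 2 × {s // ¬ S s}) =>
      (MX S F M (spl S i) (spl S j)).submatrix (spl S) (spl S)) =
      bsum (BG {s // S s} fun i j => (F i j).submatrix (spl S) (spl S))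
        (DG fun v => (M (v.1, v.2.1)).submatrix (spl S) (spl S)) := by
    funext x y
    rcases x with ⟨i, s⟩ | ⟨i, s⟩ <;> rcases y with ⟨j, t⟩ | ⟨j, t⟩
    · by_cases hst : s = t
      · subst hst
        simp [MX, spl, bsum, BG, s.2]
      · have : (s : K) ≠ t := fun h => hst (Subtype.ext h)
        ext a b
        simp [MX, spl, bsum, BG, hst, this]
    · have : (s : K) ≠ t := fun h => t.2 (h ▸ s.2)
      ext a b
      simp [MX, spl, bsum, this]
    · have : (s : K) ≠ t := fun h => s.2 (h ▸ t.2)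
      ext a b
      simp [MX, spl, bsum, this]
    · by_cases hst : s = t
      · subst hst
        by_cases hij : i = j
        · subst hij
          simp [MX, spl, bsum, DG, s.2]
        · ext a b
          simp [MX, spl, bsum, DG, s.2, hij]
      · have : (s : K) ≠ t := fun h => hst (Subtype.ext h)
        ext a b
        simp [MX, spl, bsum, DG, hst, this]
  rw [e1]
  have hF' : PosF fun i j => (F i j).submatrix (spl S) (spl S) := by
    intro ξ hξ
    have h1 := (hF ξ hξ).submatrix (spl S).injective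
    convert h1 using 1
    ext a b
    simp [Matrix.sum_apply]
  have hM' : ∀ v : Fin 2 × {s // ¬ S s},
      ((M (v.1, v.2.1)).submatrix (spl S) (spl S)).PosDef :=
    fun v => (hM _).submatrix (spl S).injective
  refine step (fun κ _ _ B => ∃ G : Fin 2 → Fin 2 → Matrix κ κ ℂ, B = BG {s // S s} G) ?_ ?_
    _ _ ⟨_, rfl⟩ (Or.inl (isCP_DG fun v => (hM' v).posSemidef))
    (posF_bsum (posF_BG hF') (posF_DG hM'))
  · rintro κ κ' _ _ _ _ L hL B ⟨G, rfl⟩
    refine ⟨fun i j => L * G i j * Lᴴ, ?_⟩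
    funext x y
    unfold BG
    split_ifs <;> simp
  · rintro B ⟨G, rfl⟩ hB
    exact equal_pos G hB

lemma MX_nonneg (S : K → Prop) [DecidablePred S] {F : Fin 2 → Fin 2 →
    Matrix (Fin 2 × K) (Fin 2 × K) ℂ} (hF : PosF F) {M : Fin 2 × K → Matrix _ _ ℂ}
    (hM : ∀ v, (M v).PosSemidef) : 0 ≤ Phi (MX S F M) := by
  let B : ℝ → Fin 2 × K → Fin 2 × K → Matrix (Fin 2 × K) (Fin 2 × K) ℂ := fun ε =>
    MX S F (fun v => M v + (ε : ℂ) • 1)
  have hcont : Continuous fun ε => Phi (B ε) := by
    refine cont_PhiB B fun x y => ?_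
    simp only [B, MX]
    split_ifs
    · exact continuous_const
    · refine continuous_const.add ?_
      exact Complex.continuous_ofReal.smul continuous_const
    · exact continuous_const
    · exact continuous_const
  have hpos : ∀ ε : ℝ, 0 < ε → 0 ≤ Phi (B ε) := by
    intro ε hε
    refine (MX_pos S hF fun v => ?_).le
    refine Matrix.PosDef.posSemidef_add (hM v) ?_
    refine Matrix.PosDef.one.smul ?_
    exact_mod_cast hε
  have h0 : Phi (B 0) = Phi (MX S F M) := by simp [B]
  rw [← h0]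
  have hcl : IsClosed {z : ℂ | 0 ≤ z} := isClosed_le continuous_const continuous_id
  have htend : Filter.Tendsto (fun ε : ℝ => Phi (B ε)) (nhdsWithin 0 (Set.Ioi 0))
      (nhds (Phi (B 0))) := (hcont.tendsto 0).mono_left nhdsWithin_le_nhds
  refine hcl.mem_of_tendsto htend ?_
  filter_upwards [self_mem_nhdsWithin] with ε hε
  exact hpos ε hε

end mixed

end Pool.Agent.H94.EB
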