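import Mathlib
import Pool.Agent.H94.EB.Mixed

set_option autoImplicit false
open scoped ComplexOrder
open Matrix Equiv Finset

namespace Pool.Agent.H94.EB

open Pool.Agent.H94.MD

section transport

variable {κ κ' : Type} [Fintype κ] [DecidableEq κ] [Fintype κ'] [DecidableEq κ']

/-- transport of a four-index tensor -/
noncomputable def tr4 (L : Matrix κ' κ ℂ) (X : κ → κ → κ → κ → ℂ) (a b c d : κ') : ℂ :=
  ∑ a', ∑ b', ∑ c', ∑ d', (L a a' * L b b' * (star (L c c') * star (L d d'))) * X a' b' c' d'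

lemma tr4_asym (L : Matrix κ' κ ℂ) (X : κ → κ → κ → κ → ℂ) :
    tr4 L (asym X) = asym (tr4 L X) := by
  funext a b c d
  have e1 : tr4 L X b a c d = ∑ a', ∑ b', ∑ c', ∑ d',
      (L a a' * L b b' * (star (L c c') * star (L d d'))) * X b' a' c' d' := by
    unfold tr4
    rw [Finset.sum_comm]
    refine Finset.sum_congr rfl fun a' _ => Finset.sum_congr rfl fun b' _ =>
      Finset.sum_congr rfl fun c' _ => Finset.sum_congr rfl fun d' _ => ?_
    ring
  have e2 : tr4 L X a b d c = ∑ a', ∑ b', ∑ c', ∑ d',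
      (L a a' * L b b' * (star (L c c') * star (L d d'))) * X a' b' d' c' := by
    unfold tr4
    refine Finset.sum_congr rfl fun a' _ => Finset.sum_congr rfl fun b' _ => ?_
    rw [Finset.sum_comm]
    refine Finset.sum_congr rfl fun c' _ => Finset.sum_congr rfl fun d' _ => ?_
    ring
  have e3 : tr4 L X b a d c = ∑ a', ∑ b', ∑ c', ∑ d',
      (L a a' * L b b' * (star (L c c') * star (L d d'))) * X b' a' d' c' := by
    unfold tr4
    rw [Finset.sum_comm]
    refine Finset.sum_congr rfl fun a' _ => Finset.sum_congr rfl fun b' _ => ?_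
    rw [Finset.sum_comm]
    refine Finset.sum_congr rfl fun c' _ => Finset.sum_congr rfl fun d' _ => ?_
    ring
  rw [asym, e1, e2, e3]
  unfold tr4 asym
  simp only [← Finset.sum_sub_distrib, ← Finset.sum_add_distrib]
  refine Finset.sum_congr rfl fun a' _ => Finset.sum_congr rfl fun b' _ =>
    Finset.sum_congr rfl fun c' _ => Finset.sum_congr rfl fun d' _ => ?_
  ring

lemma tr4_pt (L : Matrix κ' κ ℂ) (P Q : Matrix κ κ ℂ) (a b c d : κ') :
    tr4 L (fun a b c d => P a c * Q b d) a b c d = (L * P * Lᴴ) a c * (L * Q * Lᴴ) b d := by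
  have h1 : ∀ (P : Matrix κ κ ℂ) (a c : κ'), (L * P * Lᴴ) a c =
      ∑ c', ∑ a', L a a' * P a' c' * star (L c c') := by
    intro P a c
    simp only [Matrix.mul_apply, Matrix.conjTranspose_apply, Finset.sum_mul]
  rw [h1, h1, Finset.sum_mul_sum]
  simp only [Finset.sum_mul_sum]
  have e1 : ∀ G : κ → κ → κ → κ → ℂ, ∑ c', ∑ d', ∑ a', ∑ b', G a' b' c' d' =
      ∑ a', ∑ b', ∑ c', ∑ d', G a' b' c' d' := by
    intro G
    have a1 : ∀ c', ∑ d', ∑ a', ∑ b', G a' b' c' d' = ∑ a', ∑ b', ∑ d', G a' b' c' d' := by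
      intro c'
      rw [Finset.sum_comm]
      exact Finset.sum_congr rfl fun k _ => Finset.sum_comm
    rw [Finset.sum_congr rfl fun c' _ => a1 c', Finset.sum_comm]
    exact Finset.sum_congr rfl fun k _ => Finset.sum_comm
  rw [e1 fun a' b' c' d' => L a a' * P a' c' * star (L c c') * (L b b' * Q b' d' * star (L d d'))]
  unfold tr4
  refine Finset.sum_congr rfl fun a' _ => Finset.sum_congr rfl fun b' _ =>
    Finset.sum_congr rfl fun c' _ => Finset.sum_congr rfl fun d' _ => ?_
  ring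

lemma wd_eq_asym {κ : Type} (P Q : Matrix κ κ ℂ) :
    wd P Q = asym (fun a b c d => P a c * Q b d) := by
  funext a b c d
  unfold wd asym
  ring

lemma wd_conj (L : Matrix κ' κ ℂ) (P Q : Matrix κ κ ℂ) :
    wd (L * P * Lᴴ) (L * Q * Lᴴ) = tr4 L (wd P Q) := by
  rw [wd_eq_asym, wd_eq_asym, tr4_asym]
  congr 1
  funext a b c d
  rw [tr4_pt]

lemma c2_conj (L : Matrix κ' κ ℂ) (F : Fin 2 → Fin 2 → Matrix κ κ ℂ) (a b c d : κ') :
    c2 (fun i j => L * F i j * Lᴴ) a b c d = tr4 L (c2 F) a b c d := by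
  have h1 : c2 (fun i j => L * F i j * Lᴴ) a b c d =
      tr4 L (wd (F 0 0) (F 1 1)) a b c d - tr4 L (wd (F 0 1) (F 1 0)) a b c d := by
    rw [← wd_conj, ← wd_conj]
    rfl
  rw [h1]
  unfold tr4 c2
  simp only [← Finset.sum_sub_distrib]
  refine Finset.sum_congr rfl fun a' _ => Finset.sum_congr rfl fun b' _ =>
    Finset.sum_congr rfl fun c' _ => Finset.sum_congr rfl fun d' _ => ?_
  ring

lemma tr4_lin (L : Matrix κ' κ ℂ) (l : ℂ) (X : κ → κ → κ → κ → ℂ) {n : ℕ}
    (Y : Fin n → κ → κ → κ → κ → ℂ) (a b c d : κ') :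
    tr4 L (fun a b c d => l * X a b c d + ∑ t, Y t a b c d) a b c d =
      l * tr4 L X a b c d + ∑ t, tr4 L (Y t) a b c d := by
  have h1 : ∑ t, tr4 L (Y t) a b c d = tr4 L (fun a b c d => ∑ t, Y t a b c d) a b c d := by
    unfold tr4
    rw [Finset.sum_comm]
    refine Finset.sum_congr rfl fun a' _ => ?_
    rw [Finset.sum_comm]
    refine Finset.sum_congr rfl fun b' _ => ?_
    rw [Finset.sum_comm]
    refine Finset.sum_congr rfl fun c' _ => ?_
    rw [Finset.sum_comm]
    refine Finset.sum_congr rfl fun d' _ => ?_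
    rw [Finset.mul_sum]
  rw [h1]
  unfold tr4
  simp only [Finset.mul_sum, ← Finset.sum_add_distrib]
  refine Finset.sum_congr rfl fun a' _ => Finset.sum_congr rfl fun b' _ =>
    Finset.sum_congr rfl fun c' _ => Finset.sum_congr rfl fun d' _ => ?_
  rw [mul_add, Finset.mul_sum]
  ring

end transport

section good

variable {K : Type} [Fintype K] [DecidableEq K]

/-- blocks of size two whose second Chern forms are comparable to one positive form -/
def QE (K : Type) [Fintype K] [DecidableEq K] (κ : Type) [Fintype κ] [DecidableEq κ]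
    (B : Fin 2 × K → Fin 2 × K → Matrix κ κ ℂ) : Prop :=
  (∀ x y, x.2 ≠ y.2 → B x y = 0) ∧
  ∃ (F : Fin 2 → Fin 2 → Matrix κ κ ℂ) (l : K → ℝ) (n : ℕ) (P R : K → Fin n → Matrix κ κ ℂ),
    PosF F ∧ (∀ s, 0 < l s) ∧ (∀ s t, (P s t).PosSemidef) ∧ (∀ s t, (R s t).PosSemidef) ∧
    ∀ s a b c d, c2 (fun i j => B (i, s) (j, s)) a b c d =
      (l s : ℂ) * c2 F a b c d + ∑ t, wd (P s t) (R s t) a b c d

lemma QE_conj (κ κ' : Type) [Fintype κ] [DecidableEq κ] [Fintype κ'] [DecidableEq κ']
    (L : Matrix κ' κ ℂ) (hL : Function.Injective L.vecMul)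
    (B : Fin 2 × K → Fin 2 × K → Matrix κ κ ℂ) (h : QE K κ B) :
    QE K κ' (fun i j => L * B i j * Lᴴ) := by
  obtain ⟨h0, F, l, n, P, R, hF, hl, hP, hR, hc⟩ := h
  refine ⟨fun x y hxy => ?_, fun i j => L * F i j * Lᴴ, l, n, fun s t => L * P s t * Lᴴ,
    fun s t => L * R s t * Lᴴ, ?_, hl, fun s t => (hP s t).mul_mul_conjTranspose_same L,
    fun s t => (hR s t).mul_mul_conjTranspose_same L, ?_⟩
  · show L * B x y * Lᴴ = 0
    rw [h0 x y hxy]; simp
  · intro ξ hξ
    have h3 := (hF ξ hξ).mul_mul_conjTranspose_same (B := L) hL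
    convert h3 using 1
    simp only [Matrix.mul_sum, Matrix.sum_mul, Matrix.mul_smul, Matrix.smul_mul]
  · intro s a b c d
    have h1 := c2_conj L (fun i j => B (i, s) (j, s)) a b c d
    have h2 : c2 (fun i j => B (i, s) (j, s)) = fun a b c d =>
        (l s : ℂ) * c2 F a b c d + ∑ t, wd (P s t) (R s t) a b c d := by
      funext a b c d
      exact hc s a b c d
    rw [h2, tr4_lin, ← c2_conj] at h1
    simp only [← wd_conj] at h1
    exact h1

theorem good_E (B : Fin 2 × K → Fin 2 × K → Matrix (Fin 2 × K) (Fin 2 × K) ℂ)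
    (hQ : QE K (Fin 2 × K) B) (_hB : PosF B) : 0 < Phi B := by
  obtain ⟨h0, F, l, n, P, R, hF, hl, hP, hR, hc⟩ := hQ
  let w : K → Option (Fin n) → ℂ := fun s o => o.elim (l s : ℂ) (fun _ => 1)
  let G : K → Option (Fin n) → Fin 2 × K → Fin 2 × K → Fin 2 × K → Fin 2 × K → ℂ := fun s o =>
    o.elim (c2 F) (fun t => wd (P s t) (R s t))
  have h1 : (fun s => c2 (fun i j => B (i, s) (j, s))) =
      fun s a b c d => ∑ o, w s o * G s o a b c d := by
    funext s a b c d
    rw [hc, Fintype.sum_option]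
    simp [w, G]
  let M : (K → Option (Fin n)) → Fin 2 × K → Matrix (Fin 2 × K) (Fin 2 × K) ℂ := fun f x =>
    (f x.2).elim 0 (fun t => if x.1 = 0 then P x.2 t else R x.2 t)
  have hM : ∀ f x, (M f x).PosSemidef := by
    intro f x
    simp only [M]
    rcases f x.2 with _ | t
    · exact PosSemidef.zero
    · simp only [Option.elim_some]
      split_ifs
      · exact hP _ _
      · exact hR _ _
  have h2 : ∀ f : K → Option (Fin n), PhiT (fun s => G s (f s)) =
      4 ^ Fintype.card K * Phi (MX (fun s => f s = none) F (M f)) := by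
    intro f
    rw [Phi_c2]
    · congr 1
      funext s a b c d
      rcases hfs : f s with _ | t
      · simp [G, c2, MX, hfs]
      · simp [G, c2, MX, hfs, M, wd]
    · intro x y hxy
      simp [MX, hxy]
  have h3 := Phi_c2 B h0
  rw [h1, PhiT_sum] at h3
  have h4 : (0 : ℂ) < 4 ^ Fintype.card K := by
    have : (0 : ℝ) < 4 ^ Fintype.card K := by positivity
    exact_mod_cast this
  have hw : ∀ s o, 0 ≤ w s o := by
    intro s o
    rcases o with _ | t
    · simp only [w, Option.elim_none]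
      exact_mod_cast (hl s).le
    · simp only [w, Option.elim_some]
      exact zero_le_one
  have h5 : ∀ f : K → Option (Fin n), 0 ≤ (∏ s, w s (f s)) * PhiT (fun s => G s (f s)) := by
    intro f
    rw [h2]
    exact mul_nonneg (Finset.prod_nonneg fun s _ => hw _ _)
      (mul_nonneg h4.le (MX_nonneg _ hF (hM f)))
  have h6 : 0 < (∏ s, w s none) * PhiT (fun s => G s none) := by
    have e1 := h2 (fun _ => none)
    have e2 : MX (fun _ : K => (none : Option (Fin n)) = none) F (M fun _ => none) =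
        MX (fun _ : K => (none : Option (Fin n)) = none) F (fun _ => 1) := by
      funext x y
      simp [MX]
    rw [e2] at e1
    rw [e1]
    refine mul_pos (Finset.prod_pos fun s _ => ?_) (mul_pos h4 (MX_pos _ hF fun _ => PosDef.one))
    simp only [w, Option.elim_none]
    exact_mod_cast hl s
  have h7 : 0 < ∑ f : K → Option (Fin n), (∏ s, w s (f s)) * PhiT (fun s => G s (f s)) :=
    lt_of_lt_of_le h6 (Finset.single_le_sum
      (f := fun f : K → Option (Fin n) => (∏ s, w s (f s)) * PhiT (fun s => G s (f s)))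
      (fun f _ => h5 f) (Finset.mem_univ (fun _ => none)))
  rw [← h3] at h7
  exact (mul_pos_iff_of_pos_left h4).mp h7

end good

end Pool.Agent.H94.EB
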