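import Mathlib
import Pool.Agent.H94.EB.Good

set_option autoImplicit false
open scoped ComplexOrder
open Matrix Equiv Finset

namespace Pool.Agent.H94.EB

open Pool.Agent.H94.MD

variable {K V W : Type} [Fintype K] [DecidableEq K] [Fintype V] [DecidableEq V]
  [Fintype W] [DecidableEq W]

/-- blocks of size two plus a completely positive part -/
def QF (K V : Type) [Fintype K] [DecidableEq K]
    (κ : Type) [Fintype κ] [DecidableEq κ]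
    (B : ((Fin 2 × K) ⊕ V) → ((Fin 2 × K) ⊕ V) → Matrix κ κ ℂ) : Prop :=
  (∀ i j, B (Sum.inl i) (Sum.inr j) = 0) ∧ (∀ i j, B (Sum.inr i) (Sum.inl j) = 0) ∧
    QE K κ (fun i j => B (Sum.inl i) (Sum.inl j)) ∧
    IsCP (fun i j => B (Sum.inr i) (Sum.inr j))

lemma mid_pos_eb
    (B : ((Fin 2 × K) ⊕ V) → ((Fin 2 × K) ⊕ V) → Matrix ((Fin 2 × K) ⊕ V) ((Fin 2 × K) ⊕ V) ℂ)
    (hQ : QF K V _ B) (hB : PosF B) : 0 < Phi B := by
  obtain ⟨h12, h21, hZ, hCP⟩ := hQ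
  rw [eq_bsum B h12 h21] at hB ⊢
  exact step (QE K) QE_conj good_E _ _ hZ (Or.inl hCP) hB

theorem main_eb
    (B : (((Fin 2 × K) ⊕ V) ⊕ W) → (((Fin 2 × K) ⊕ V) ⊕ W) →
      Matrix (((Fin 2 × K) ⊕ V) ⊕ W) (((Fin 2 × K) ⊕ V) ⊕ W) ℂ)
    (h12 : ∀ i j, B (Sum.inl i) (Sum.inr j) = 0) (h21 : ∀ i j, B (Sum.inr i) (Sum.inl j) = 0)
    (hQ : QF K V _ (fun i j => B (Sum.inl i) (Sum.inl j)))
    (hW : IsCoCP (fun i j => B (Sum.inr i) (Sum.inr j))) (hB : PosF B) : 0 < Phi B := by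
  rw [eq_bsum B h12 h21] at hB ⊢
  refine step (QF K V) ?_ mid_pos_eb _ _ hQ (Or.inr hW) hB
  intro κ κ' _ _ _ _ L hL B' h
  obtain ⟨k12, k21, hs, hcp⟩ := h
  refine ⟨fun i j => ?_, fun i j => ?_, ?_, ?_⟩
  · show L * B' _ _ * Lᴴ = 0
    rw [k12]; simp
  · show L * B' _ _ * Lᴴ = 0
    rw [k21]; simp
  · exact QE_conj κ κ' L hL _ hs
  · exact isCP_conj L hcp

end Pool.Agent.H94.EB
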